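import Pool.Agent.SYS.TP.Defs
import Pool.Agent.SYS.XP.Cut
import Pool.Agent.SYS.UT.Grd

/-!
# SYSS-TOPS-AreaF: the area of a gradient and a cocycle
-/

namespace SYS.TP

open Classical SST GNH Part

variable {D : Type} [Fintype D] {S : Part D} {T : Tri D}

theorem area_form (h : S.Le T) {x y q : D → ℝ} (hx : Grad S T x q) (hy : T.IsCoc y) :
    T.Area x y = 3 * ∑ e ∈ Finset.univ.filter (fun e => e ∈ S.B), (q (S.nx e) + q e) * y e +
      ∑ d ∈ Finset.univ.filter (fun d => d ∉ S.R), (x d * y (T.f d) - x (T.f d) * y d) := by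
  have h1 := area_grd h hx.inv (Finset.univ.filter (fun d => d ∈ S.R)) (Finset.univ.filter (fun e => e ∈ S.B))
    (fun d => by simp) (fun d => by simp) hy
  have h2 : ∀ d, d ∈ S.R → x d = grd S q d := by
    intro d hd
    unfold grd
    rw [if_pos hd]
    exact hx.grd d hd
  have h3 : ∑ d ∈ Finset.univ.filter (fun d => d ∈ S.R), (x d * y (T.f d) - x (T.f d) * y d) =
      ∑ d ∈ Finset.univ.filter (fun d => d ∈ S.R), (grd S q d * y (T.f d) - grd S q (T.f d) * y d) := by
    refine Finset.sum_congr rfl fun d hd => ?_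
    have hd' : d ∈ S.R := (Finset.mem_filter.1 hd).2
    rw [h2 d hd', h2 (T.f d) ((le_f_mem h d).2 hd')]
  rw [← h1, ← h3]
  exact (Finset.sum_filter_add_sum_filter_not Finset.univ (fun d => d ∈ S.R) _).symm

theorem grad_cut (h : S.Le T) {Y : Set D} (hY : XP.Fs T Y) (hs : S.R ⊆ Y) {x q : D → ℝ}
    (hx : Grad (XP.cut T Y hY) T x q) : Grad S T x q := by
  refine ⟨hx.coc, fun d hd hb => ?_, fun d hd => ?_⟩
  · have h1 : d ∈ (XP.cut T Y hY).R := by
      rw [XP.cut_R]
      exact hs hd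
    have h2 : d ∉ (XP.cut T Y hY).B := by
      rw [XP.cut_B]
      rintro ⟨_, h3⟩
      apply h3
      apply hs
      rw [h.2 d (fun h4 => hb ⟨hd, h4⟩)]
      exact (mem_R_a S d).2 hd
    have h3 := hx.inv d h1 h2
    rw [← le_s (XP.cut_le T Y hY) h1 h2, le_s h hd hb] at h3
    exact h3
  · have h1 : d ∈ (XP.cut T Y hY).R := by
      rw [XP.cut_R]
      exact hs hd
    rw [hx.grd d h1, ← (XP.cut_le T Y hY).1 d h1, h.1 d hd]

end SYS.TP
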