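import Pool.Agent.SYS.TP.VTr
import Pool.Agent.SYS.TP.AreaF

/-!
# SYSS-TOPS-CocTr: replacement of a region: cocycles which are gradients on the region
-/

namespace SYS.TP

open Classical SST GNH Part

variable {D E : Type} [Fintype D] [Fintype E] {S : Part D} {U : Part E} {T : Tri D} {T' : Tri E} {χ : D → E}

theorem grad_tr (h : Rep S U T T' χ) {Y : Set D} (hY : XP.Fs T Y) (hYS : ∀ d ∈ Y, d ∉ S.R)
    (h2 : XP.Fs T (S.R ∪ Y)) (h1 : XP.Fs T' (U.R ∪ χ '' Y)) {x' q' : E → ℝ}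
    (hx : Grad (XP.cut T' (U.R ∪ χ '' Y) h1) T' x' q') :
    ∃ x q : D → ℝ, Grad (XP.cut T (S.R ∪ Y) h2) T x q ∧ (∀ d ∈ S.X, x d = x' (χ d)) ∧
      ∀ d, (d ∈ S.B ∨ d ∈ Y) → q d = q' (χ d) := by
  obtain ⟨q, hqV, hqS, hqe⟩ := vinv_tr h hY hYS h2 h1 hx.inv
  have hU : Grad U T' x' q' := grad_cut h.le' h1 Set.subset_union_left hx
  have hBU : ∀ d ∈ S.B, χ d ∈ U.B := fun d hd => by
    rw [← h.bd]
    exact ⟨d, hd, rfl⟩
  obtain ⟨x, hxd⟩ : ∃ x : D → ℝ, x = fun d => if d ∈ S.R then q (T.f d) - q d else x' (χ d) := ⟨_, rfl⟩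
  have hxR : ∀ d ∈ S.R, x d = q (T.f d) - q d := fun d hd => by
    rw [hxd]
    exact if_pos hd
  have hxN : ∀ d, d ∉ S.R → x d = x' (χ d) := fun d hd => by
    rw [hxd]
    exact if_neg hd
  have hX : ∀ d ∈ S.X, x d = x' (χ d) := by
    intro d hd
    by_cases hR : d ∈ S.R
    · have hB : d ∈ S.B := hd.resolve_left fun h1 => h1 hR
      have hnB : S.nx d ∈ S.B := (S.nx_mem).2 hB
      have e1 : q (S.nx d) = q' (U.nx (χ d)) := by rw [hqe _ (Or.inl hnB), h.nx d hB]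
      have e2 : q' (U.f (χ d)) = q' (U.nx (χ d)) := hU.inv.nx (hBU d hB)
      rw [hxR d hR, h.le.1 d hR, hqS.nx hB, e1, ← e2, hqe d (Or.inl hB), hU.grd _ (hBU d hB).1]
    · exact hxN d hR
  have hcoc : T.IsCoc x := by
    refine ⟨fun d => ?_, fun d => ?_⟩
    · by_cases hd : d ∈ S.X
      · rw [hX d hd, hX _ ((X_a h.le d).2 hd), ← h.a d hd, hU.coc.1]
      · have hR : d ∈ S.R := by
          by_contra h1
          exact hd (Or.inl h1)
        have hB : d ∉ S.B := fun h1 => hd (Or.inr h1)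
        have hne : S.a d ≠ d := fun h1 => hB ⟨hR, h1⟩
        have haR : S.a d ∈ S.R := (mem_R_a S d).2 hR
        have haB : S.a d ∉ S.B := fun h1 => by
          have h2 := h1.2
          rw [S.aa] at h2
          exact hne h2.symm
        have e1 : q (S.f (S.a d)) = q d := hqS d hR hB
        have e2 := hqS (S.a d) haR haB
        rw [s_apply, S.aa] at e2
        rw [h.le.2 d hne, hxR d hR, hxR _ haR, h.le.1 d hR, h.le.1 _ haR, e1, e2]
        ring
    · by_cases hR : d ∈ S.R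
      · have h3 : T.f d ∈ S.R := (le_f_mem h.le d).2 hR
        have h4 : T.f (T.f d) ∈ S.R := (le_f_mem h.le _).2 h3
        rw [hxR d hR, hxR _ h3, hxR _ h4, T.fff]
        ring
      · have h3 : T.f d ∉ S.R := fun h2 => hR ((le_f_mem h.le d).1 h2)
        have h4 : T.f (T.f d) ∉ S.R := fun h5 => h3 ((le_f_mem h.le _).1 h5)
        rw [hxN d hR, hxN _ h3, hxN _ h4, ← h.f _ h3, ← h.f _ hR]
        exact hU.coc.2 (χ d)
  refine ⟨x, q, ⟨hcoc, hqV, fun d hd => ?_⟩, hX, hqe⟩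
  have hf : (XP.cut T (S.R ∪ Y) h2).f d = T.f d := ((XP.cut_le T _ h2).1 d hd).symm
  rw [XP.cut_R] at hd
  rw [hf]
  by_cases hR : d ∈ S.R
  · exact hxR d hR
  · have hdY : d ∈ Y := hd.resolve_left hR
    have hfY : T.f d ∈ Y := (hY d).2 hdY
    have hd' : χ d ∈ (XP.cut T' (U.R ∪ χ '' Y) h1).R := by
      rw [XP.cut_R]
      exact Or.inr ⟨d, hdY, rfl⟩
    have hf' : (XP.cut T' (U.R ∪ χ '' Y) h1).f (χ d) = T'.f (χ d) := ((XP.cut_le T' _ h1).1 _ hd').symm
    rw [hxN d hR, hx.grd _ hd', hf', h.f d hR, hqe _ (Or.inr hfY), hqe _ (Or.inr hdY)]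

theorem area_tr (h : Rep S U T T' χ) {x y q r : D → ℝ} {x' y' q' r' : E → ℝ} (hx : Grad S T x q) (hy : Grad S T y r)
    (hx' : Grad U T' x' q') (hy' : Grad U T' y' r') (ex : ∀ d ∈ S.X, x d = x' (χ d)) (ey : ∀ d ∈ S.X, y d = y' (χ d))
    (eq : ∀ d ∈ S.B, q d = q' (χ d)) : T.Area x y = T'.Area x' y' := by
  rw [area_form h.le hx hy.coc, area_form h.le' hx' hy'.coc]
  have e1 : ∑ e ∈ Finset.univ.filter (fun e => e ∈ S.B), (q (S.nx e) + q e) * y e =
      ∑ e ∈ Finset.univ.filter (fun e => e ∈ U.B), (q' (U.nx e) + q' e) * y' e := by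
    refine Finset.sum_nbij χ (fun e he => ?_) (fun e he e' he' hee => ?_) (fun e he => ?_) fun e he => ?_
    · refine Finset.mem_filter.2 ⟨Finset.mem_univ _, ?_⟩
      rw [← h.bd]
      exact ⟨e, (Finset.mem_filter.1 he).2, rfl⟩
    · exact h.inj (Or.inr (Finset.mem_filter.1 (Finset.mem_coe.1 he)).2)
        (Or.inr (Finset.mem_filter.1 (Finset.mem_coe.1 he')).2) hee
    · have he' := (Finset.mem_filter.1 (Finset.mem_coe.1 he)).2
      rw [← h.bd] at he'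
      obtain ⟨d, hd, hde⟩ := he'
      exact ⟨d, Finset.mem_coe.2 (Finset.mem_filter.2 ⟨Finset.mem_univ _, hd⟩), hde⟩
    · have he' := (Finset.mem_filter.1 he).2
      rw [eq e he', eq _ ((S.nx_mem).2 he'), ← h.nx e he', ey e (Or.inr he')]
  have e2 : ∑ d ∈ Finset.univ.filter (fun d => d ∉ S.R), (x d * y (T.f d) - x (T.f d) * y d) =
      ∑ d ∈ Finset.univ.filter (fun d => d ∉ U.R), (x' d * y' (T'.f d) - x' (T'.f d) * y' d) := by
    refine Finset.sum_nbij χ (fun e he => ?_) (fun e he e' he' hee => ?_) (fun e he => ?_) fun e he => ?_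
    · exact Finset.mem_filter.2 ⟨Finset.mem_univ _, h.out e (Finset.mem_filter.1 he).2⟩
    · exact h.inj (Or.inl (Finset.mem_filter.1 (Finset.mem_coe.1 he)).2)
        (Or.inl (Finset.mem_filter.1 (Finset.mem_coe.1 he')).2) hee
    · obtain ⟨d, hd, hde⟩ := h.sur e (Finset.mem_filter.1 (Finset.mem_coe.1 he)).2
      exact ⟨d, Finset.mem_coe.2 (Finset.mem_filter.2 ⟨Finset.mem_univ _, hd⟩), hde⟩
    · have he' := (Finset.mem_filter.1 he).2
      have hfe : T.f e ∉ S.R := fun h2 => he' ((le_f_mem h.le e).1 h2)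
      rw [ex e (Or.inl he'), ey e (Or.inl he'), ex _ (Or.inl hfe), ey _ (Or.inl hfe), ← h.f e he']
  rw [e1, e2]

end SYS.TP
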