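import Pool.Agent.SYS.CO.Bas
import Pool.Agent.SYS.US.Defs
import Pool.Agent.SYS.UT.SumB
import Pool.Agent.SYS.Lib.HidB

/-!
# Project SYS (MP_650813_pr), block TOPS: from a flat strip and a seed to a simple separating cycle (definitions).  DO NOT CHANGE.

`star T v`: faces with a corner at the vertex `v`.  `run S d m`: `m` consecutive boundary darts of the region `S` (`S.hw x = run S x (S.per x)`).
`Grad S T x q`: the cocycle `x` of `T` is the gradient of `q` on the region `S` (`q` is a function on the vertices of the abstract surface `S`, given as a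
function on the corners = darts, invariant under the rotation inside `S`).
`Rep S U T T' χ`: the region `S` of `T` is replaced by the region `U` of `T'`; `χ` maps the darts of the hidden part and the boundary darts of `S` to those of `U`.
-/

namespace SYS.TP

open Classical SST GNH Part

variable {D : Type}

/-- The faces with a corner at the vertex `v`. -/
def star (T : Tri D) (v : T.V) : Set D := {d | T.tl d = v ∨ T.tl (T.f d) = v ∨ T.tl (T.f (T.f d)) = v}

/-- Consecutive boundary darts of a hole. -/
noncomputable def run [Finite D] (S : Part D) (d : D) (m : ℕ) : List D := (List.range m).map fun i => (S.nx ^ i) d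

/-- The cocycle `x` is the gradient of `q` on `S`. -/
structure Grad (S : Part D) (T : Tri D) (x q : D → ℝ) : Prop where
  coc : T.IsCoc x
  inv : VInv S q
  grd : ∀ d ∈ S.R, x d = q (S.f d) - q d

/-- `S` is replaced by `U`. -/
structure Rep {E : Type} [Finite D] [Finite E] (S : Part D) (U : Part E) (T : Tri D) (T' : Tri E) (χ : D → E) : Prop where
  le : S.Le T
  le' : U.Le T'
  inj : Set.InjOn χ S.X
  out : ∀ d, d ∉ S.R → χ d ∉ U.R
  sur : ∀ e, e ∉ U.R → ∃ d, d ∉ S.R ∧ χ d = e
  bd : χ '' S.B = U.B
  nx : ∀ d ∈ S.B, U.nx (χ d) = χ (S.nx d)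
  f : ∀ d, d ∉ S.R → T'.f (χ d) = χ (T.f d)
  a : ∀ d ∈ S.X, T'.a (χ d) = χ (T.a d)

end SYS.TP
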