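import Pool.Agent.SYS.TP.AreaF

/-!
# SYSS-TOPS-Han: two gradients with non-zero area give a handle in one hidden component
-/

namespace SYS.TP

open Classical SST GNH Part

variable {D : Type} [Fintype D] {S : Part D} {T : Tri D}

theorem split_grad (h : S.Le T) {x q : D → ℝ} (hx : Grad S T x q) (z : D) :
    ∃ x1 q1 : D → ℝ, Grad S T x1 q1 ∧ (∀ d ∈ S.X, x1 d = if S.Hc T z d then x d else 0) ∧
      ∀ d ∈ S.B, q1 d = if S.Hc T z d then q d else 0 := by
  obtain ⟨q1, hq1, hq1B⟩ := exists_vinv S (fun e : D => if S.Hc T z e then q e else 0)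
  obtain ⟨x1, hx1⟩ : ∃ x1 : D → ℝ, x1 = fun d => if d ∈ S.R then q1 (S.f d) - q1 d else
    if S.Hc T z d then x d else 0 := ⟨_, rfl⟩
  have hxR : ∀ d ∈ S.R, x1 d = q1 (S.f d) - q1 d := fun d hd => by
    rw [hx1]
    exact if_pos hd
  have hxN : ∀ d, d ∉ S.R → x1 d = if S.Hc T z d then x d else 0 := fun d hd => by
    rw [hx1]
    exact if_neg hd
  have hX : ∀ d ∈ S.X, x1 d = if S.Hc T z d then x d else 0 := by
    intro d hd
    by_cases hR : d ∈ S.R
    · have hB : d ∈ S.B := hd.resolve_left fun h1 => h1 hR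
      have hnB : S.nx d ∈ S.B := (S.nx_mem).2 hB
      have hH : S.Hc T z (S.nx d) ↔ S.Hc T z d :=
        ⟨fun h1 => hc_trans h1 (hc_symm (hc_nx hB)), fun h1 => hc_trans h1 (hc_nx hB)⟩
      rw [hxR d hR, hq1.nx hB, hq1B _ hnB, hq1B d hB, hx.grd d hR, hx.inv.nx hB]
      by_cases h2 : S.Hc T z d
      · rw [if_pos (hH.2 h2), if_pos h2, if_pos h2]
      · rw [if_neg (fun h3 => h2 (hH.1 h3)), if_neg h2, if_neg h2, sub_zero]
    · exact hxN d hR
  refine ⟨x1, q1, ⟨⟨fun d => ?_, fun d => ?_⟩, hq1, hxR⟩, hX, hq1B⟩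
  · by_cases hd : d ∈ S.X
    · have hH : S.Hc T z (T.a d) ↔ S.Hc T z d :=
        ⟨fun h1 => hc_trans h1 (hc_symm (hc_a hd)), fun h1 => hc_trans h1 (hc_a hd)⟩
      rw [hX d hd, hX _ ((X_a h d).2 hd)]
      by_cases h2 : S.Hc T z d
      · rw [if_pos (hH.2 h2), if_pos h2, hx.coc.1]
      · rw [if_neg (fun h3 => h2 (hH.1 h3)), if_neg h2, neg_zero]
    · have hR : d ∈ S.R := by
        by_contra h1
        exact hd (Or.inl h1)
      have hB : d ∉ S.B := fun h1 => hd (Or.inr h1)
      have hne : S.a d ≠ d := fun h1 => hB ⟨hR, h1⟩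
      have haR : S.a d ∈ S.R := (mem_R_a S d).2 hR
      have haB : S.a d ∉ S.B := fun h1 => by
        have h2 := h1.2
        rw [S.aa] at h2
        exact hne h2.symm
      have e1 : q1 (S.f (S.a d)) = q1 d := hq1 d hR hB
      have e2 := hq1 (S.a d) haR haB
      rw [s_apply, S.aa] at e2
      rw [h.2 d hne, hxR d hR, hxR _ haR, e1, e2]
      ring
  · by_cases hR : d ∈ S.R
    · have h1 : S.f d ∈ S.R := (mem_R_f S d).2 hR
      have h2 : S.f (S.f d) ∈ S.R := (mem_R_f S _).2 h1
      rw [h.1 d hR, h.1 _ h1, hxR d hR, hxR _ h1, hxR _ h2, S.fff]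
      ring
    · have h1 : T.f d ∉ S.R := fun h2 => hR ((le_f_mem h d).1 h2)
      have h2 : T.f (T.f d) ∉ S.R := fun h3 => h1 ((le_f_mem h _).1 h3)
      have hH : S.Hc T z (T.f d) ↔ S.Hc T z d :=
        ⟨fun h1 => hc_trans h1 (hc_symm (hc_f hR)), fun h1 => hc_trans h1 (hc_f hR)⟩
      have hH' : S.Hc T z (T.f (T.f d)) ↔ S.Hc T z (T.f d) :=
        ⟨fun h3 => hc_trans h3 (hc_symm (hc_f h1)), fun h3 => hc_trans h3 (hc_f h1)⟩
      rw [hxN d hR, hxN _ h1, hxN _ h2]
      by_cases h3 : S.Hc T z d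
      · rw [if_pos (hH'.2 (hH.2 h3)), if_pos (hH.2 h3), if_pos h3]
        exact hx.coc.2 d
      · rw [if_neg (fun h4 => h3 (hH.1 (hH'.1 h4))), if_neg (fun h4 => h3 (hH.1 h4)), if_neg h3]
        ring

omit [Fintype D] in
private theorem grad_sub {x x' q q' : D → ℝ} (hx : Grad S T x q) (hx' : Grad S T x' q') :
    Grad S T (fun d => x d - x' d) fun d => q d - q' d := by
  refine ⟨⟨fun d => ?_, fun d => ?_⟩, fun d hd hB => ?_, fun d hd => ?_⟩
  · show x (T.a d) - x' (T.a d) = - (x d - x' d)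
    rw [hx.coc.1, hx'.coc.1]
    ring
  · have h1 := hx.coc.2 d
    have h2 := hx'.coc.2 d
    show x d - x' d + (x (T.f d) - x' (T.f d)) + (x (T.f (T.f d)) - x' (T.f (T.f d))) = 0
    linear_combination h1 - h2
  · show q (S.s d) - q' (S.s d) = q d - q' d
    rw [hx.inv d hd hB, hx'.inv d hd hB]
  · show x d - x' d = q (S.f d) - q' (S.f d) - (q d - q' d)
    rw [hx.grd d hd, hx'.grd d hd]
    ring

private theorem area_swap (x y : D → ℝ) : T.Area x y = - T.Area y x := by
  unfold SST.Tri.Area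
  rw [← Finset.sum_neg_distrib]
  refine Finset.sum_congr rfl fun d _ => ?_
  ring

private theorem area_sub_left (x x' y : D → ℝ) : T.Area (fun d => x d - x' d) y = T.Area x y - T.Area x' y := by
  unfold SST.Tri.Area
  rw [← Finset.sum_sub_distrib]
  refine Finset.sum_congr rfl fun d _ => ?_
  ring

private theorem area_zero (h : S.Le T) {x y q : D → ℝ} (hx : Grad S T x q) (hy : T.IsCoc y)
    (hB : ∀ e ∈ S.B, (q (S.nx e) = 0 ∧ q e = 0) ∨ y e = 0)
    (hN : ∀ d, d ∉ S.R → (x d = 0 ∧ x (T.f d) = 0) ∨ (y d = 0 ∧ y (T.f d) = 0)) : T.Area x y = 0 := by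
  rw [area_form h hx hy]
  have e1 : ∑ e ∈ Finset.univ.filter (fun e => e ∈ S.B), (q (S.nx e) + q e) * y e = 0 :=
    Finset.sum_eq_zero fun e he => by
      rcases hB e (Finset.mem_filter.1 he).2 with ⟨h1, h2⟩ | h1
      · rw [h1, h2]
        ring
      · rw [h1, mul_zero]
  have e2 : ∑ d ∈ Finset.univ.filter (fun d => d ∉ S.R), (x d * y (T.f d) - x (T.f d) * y d) = 0 :=
    Finset.sum_eq_zero fun d hd => by
      rcases hN d (Finset.mem_filter.1 hd).2 with ⟨h1, h2⟩ | ⟨h1, h2⟩
      · rw [h1, h2]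
        ring
      · rw [h1, h2]
        ring
  rw [e1, e2]
  ring

theorem han (hT : T.Conn) (h : S.Le T) (hne : S.R.Nonempty) {x x' q q' : D → ℝ} (hx : Grad S T x q)
    (hx' : Grad S T x' q') (hA : T.Area x x' ≠ 0) :
    ∃ z ∈ S.B, ∃ w1 w2 q1 q2 : D → ℝ, Grad S T w1 q1 ∧ Grad S T w2 q2 ∧
      (∀ d ∈ S.X, ¬ S.Hc T z d → w1 d = 0 ∧ w2 d = 0) ∧ (∀ d ∈ S.B, ¬ S.Hc T z d → q1 d = 0 ∧ q2 d = 0) ∧
      T.Area w1 w2 ≠ 0 := by
  have key : ∀ n : ℕ, ∀ x q : D → ℝ, Grad S T x q → (Finset.univ.filter fun d => d ∈ S.X ∧ x d ≠ 0).card ≤ n →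
      T.Area x x' ≠ 0 → ∃ z ∈ S.B, ∃ w1 w2 q1 q2 : D → ℝ, Grad S T w1 q1 ∧ Grad S T w2 q2 ∧
      (∀ d ∈ S.X, ¬ S.Hc T z d → w1 d = 0 ∧ w2 d = 0) ∧ (∀ d ∈ S.B, ¬ S.Hc T z d → q1 d = 0 ∧ q2 d = 0) ∧
      T.Area w1 w2 ≠ 0 := by
    intro n
    induction n with
    | zero =>
      intro x q hx hn hA
      exfalso
      have hX : ∀ d ∈ S.X, x d = 0 := by
        intro d hd
        by_contra h1
        have h2 : d ∈ Finset.univ.filter fun d => d ∈ S.X ∧ x d ≠ 0 :=
          Finset.mem_filter.2 ⟨Finset.mem_univ _, hd, h1⟩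
        rw [Finset.card_eq_zero.1 (Nat.le_zero.1 hn)] at h2
        exact absurd h2 (Finset.notMem_empty d)
      apply hA
      rw [area_swap, area_zero h hx' hx.coc (fun e he => Or.inr (hX e (Or.inr he))) (fun d hd => Or.inr
        ⟨hX d (Or.inl hd), hX _ (Or.inl fun h1 => hd ((le_f_mem h d).1 h1))⟩), neg_zero]
    | succ n ih =>
      intro x q hx hn hA
      by_cases hex : ∃ d ∈ S.X, x d ≠ 0
      · obtain ⟨d, hd, hxd⟩ := hex
        obtain ⟨z, hz, hdz⟩ := hc_meets h hT hne hd
        have hzd := hc_symm hdz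
        obtain ⟨x1, q1, hx1, e1, f1⟩ := split_grad h hx z
        have hx2 := grad_sub hx hx1
        by_cases hA2 : T.Area (fun d => x d - x1 d) x' ≠ 0
        · refine ih _ _ hx2 ?_ hA2
          have h1 : (Finset.univ.filter fun e => e ∈ S.X ∧ x e - x1 e ≠ 0) ⊂
              Finset.univ.filter fun e => e ∈ S.X ∧ x e ≠ 0 := by
            rw [Finset.ssubset_iff_of_subset]
            · refine ⟨d, Finset.mem_filter.2 ⟨Finset.mem_univ _, hd, hxd⟩, fun h2 => ?_⟩
              have h3 := (Finset.mem_filter.1 h2).2.2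
              rw [e1 d hd, if_pos hzd, sub_self] at h3
              exact h3 rfl
            · intro e he
              obtain ⟨_, h2, h3⟩ := Finset.mem_filter.1 he
              refine Finset.mem_filter.2 ⟨Finset.mem_univ _, h2, fun h4 => h3 ?_⟩
              rw [e1 e h2, h4]
              simp
          have h2 := Finset.card_lt_card h1
          omega
        · have hA1 : T.Area x1 x' ≠ 0 := by
            intro h1
            apply hA2
            rw [area_sub_left, h1, sub_zero]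
            exact hA
          obtain ⟨x1', q1', hx1', e1', f1'⟩ := split_grad h hx' z
          have hx2' := grad_sub hx' hx1'
          have hA3 : T.Area x1 (fun d => x' d - x1' d) = 0 := by
            refine area_zero h hx1 hx2'.coc (fun e he => ?_) (fun e he => ?_)
            · by_cases h1 : S.Hc T z e
              · right
                show x' e - x1' e = 0
                rw [e1' e (Or.inr he), if_pos h1, sub_self]
              · left
                have h2 : ¬ S.Hc T z (S.nx e) := fun h3 => h1 (hc_trans h3 (hc_symm (hc_nx he)))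
                rw [f1 _ ((S.nx_mem).2 he), if_neg h2, f1 e he, if_neg h1]
                exact ⟨rfl, rfl⟩
            · have hfe : T.f e ∉ S.R := fun h1 => he ((le_f_mem h e).1 h1)
              have hH : S.Hc T z (T.f e) ↔ S.Hc T z e :=
                ⟨fun h1 => hc_trans h1 (hc_symm (hc_f he)), fun h1 => hc_trans h1 (hc_f he)⟩
              by_cases h1 : S.Hc T z e
              · right
                refine ⟨?_, ?_⟩
                · show x' e - x1' e = 0
                  rw [e1' e (Or.inl he), if_pos h1, sub_self]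
                · show x' (T.f e) - x1' (T.f e) = 0
                  rw [e1' _ (Or.inl hfe), if_pos (hH.2 h1), sub_self]
              · left
                rw [e1 e (Or.inl he), if_neg h1, e1 _ (Or.inl hfe), if_neg fun h2 => h1 (hH.1 h2)]
                exact ⟨rfl, rfl⟩
          refine ⟨z, hz, x1, x1', q1, q1', hx1, hx1', fun e he h1 => ?_, fun e he h1 => ?_, fun h1 => hA1 ?_⟩
          · rw [e1 e he, e1' e he, if_neg h1, if_neg h1]
            exact ⟨rfl, rfl⟩
          · rw [f1 e he, f1' e he, if_neg h1, if_neg h1]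
            exact ⟨rfl, rfl⟩
          · rw [area_swap, area_sub_left, area_swap x' x1, area_swap x1' x1, h1] at hA3
            linarith
      · push Not at hex
        refine ih x q hx ?_ hA
        have h1 : (Finset.univ.filter fun d => d ∈ S.X ∧ x d ≠ 0) = ∅ := by
          rw [Finset.filter_eq_empty_iff]
          rintro d _ ⟨h2, h3⟩
          exact h3 (hex d h2)
        rw [h1, Finset.card_empty]
        exact Nat.zero_le _
  exact key _ x q hx le_rfl hA

end SYS.TP
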