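import Pool.Agent.SYS.TP.AreaF
import Pool.Agent.SYS.UT.SepH

/-!
# SYSS-TOPS-Hei: the hole of a component with a handle is not contractible if the region has a handle
-/

namespace SYS.TP

open Classical SST GNH Part

variable {D : Type} [Fintype D] {S : Part D} {T : Tri D}

omit [Fintype D] in
private theorem nX {d : D} : (d ∈ S.R ∧ d ∉ S.B) ↔ d ∉ S.X := by
  constructor
  · rintro ⟨h1, h2⟩ (h3 | h3)
    · exact h3 h1
    · exact h2 h3
  · intro h1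
    refine ⟨?_, fun h2 => h1 (Or.inr h2)⟩
    by_contra h2
    exact h1 (Or.inl h2)

private theorem other_f (h : S.Le T) (z d : D) : (T.f d ∈ S.R ∨ (T.f d ∈ S.X ∧ ¬ S.Hc T z (T.f d))) ↔
    (d ∈ S.R ∨ (d ∈ S.X ∧ ¬ S.Hc T z d)) := by
  have h1 := Part.le_f_mem h d
  by_cases hd : d ∈ S.R
  · exact ⟨fun _ => Or.inl hd, fun _ => Or.inl (h1.2 hd)⟩
  · have hfd : T.f d ∉ S.R := fun h2 => hd (h1.1 h2)
    have h3 : S.Hc T z (T.f d) ↔ S.Hc T z d :=
      ⟨fun h4 => Part.hc_trans h4 (Part.hc_symm (Part.hc_f hd)), fun h4 => Part.hc_trans h4 (Part.hc_f hd)⟩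
    rw [h3]
    constructor
    · rintro (h4 | ⟨_, h4⟩)
      · exact absurd h4 hfd
      · exact Or.inr ⟨Or.inl hd, h4⟩
    · rintro (h4 | ⟨_, h4⟩)
      · exact absurd h4 hd
      · exact Or.inr ⟨Or.inl hfd, h4⟩

private theorem other_a (h : S.Le T) (z d : D) :
    ((T.a d ∈ S.R ∧ T.a d ∉ S.B) ∨ (T.a d ∈ S.X ∧ ¬ S.Hc T z (T.a d))) ↔
      ((d ∈ S.R ∧ d ∉ S.B) ∨ (d ∈ S.X ∧ ¬ S.Hc T z d)) := by
  rw [nX, nX, Part.X_a h]
  by_cases hd : d ∈ S.X
  · have h3 : S.Hc T z (T.a d) ↔ S.Hc T z d :=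
      ⟨fun h4 => Part.hc_trans h4 (Part.hc_symm (Part.hc_a hd)), fun h4 => Part.hc_trans h4 (Part.hc_a hd)⟩
    rw [h3]
  · exact ⟨fun _ => Or.inl hd, fun _ => Or.inl hd⟩

private theorem stokes_c (h : S.Le T) {z : D} (hz : z ∈ S.B) (hu : ∀ d ∈ S.B, S.Hc T z d → d ∈ S.hw z)
    {t : D → ℝ} (ht : ∀ d, (d ∈ S.R ∧ d ∉ S.B) ∨ (d ∈ S.X ∧ ¬ S.Hc T z d) → t (T.a d) = - t d) :
    ∑ d ∈ Finset.univ.filter (fun d => d ∈ S.R ∨ (d ∈ S.X ∧ ¬ S.Hc T z d)), (t d + t (T.f d) + t (T.f (T.f d))) =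
      3 * ∑ e ∈ Finset.univ.filter (fun e => e ∈ S.hw z), t e := by
  have hYF := other_f h z
  have hEA := other_a h z
  have hf : ∑ d ∈ Finset.univ.filter (fun d => d ∈ S.R ∨ (d ∈ S.X ∧ ¬ S.Hc T z d)), t (T.f d) =
      ∑ d ∈ Finset.univ.filter (fun d => d ∈ S.R ∨ (d ∈ S.X ∧ ¬ S.Hc T z d)), t d :=
    Finset.sum_equiv T.f (fun d => by
      rw [Finset.mem_filter, Finset.mem_filter]
      exact ⟨fun h1 => ⟨Finset.mem_univ _, (hYF d).2 h1.2⟩, fun h1 => ⟨Finset.mem_univ _, (hYF d).1 h1.2⟩⟩) fun d _ => rfl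
  have hf2 : ∑ d ∈ Finset.univ.filter (fun d => d ∈ S.R ∨ (d ∈ S.X ∧ ¬ S.Hc T z d)), t (T.f (T.f d)) =
      ∑ d ∈ Finset.univ.filter (fun d => d ∈ S.R ∨ (d ∈ S.X ∧ ¬ S.Hc T z d)), t (T.f d) :=
    Finset.sum_equiv T.f (fun d => by
      rw [Finset.mem_filter, Finset.mem_filter]
      exact ⟨fun h1 => ⟨Finset.mem_univ _, (hYF d).2 h1.2⟩, fun h1 => ⟨Finset.mem_univ _, (hYF d).1 h1.2⟩⟩) fun d _ => rfl
  have ha : ∑ d ∈ Finset.univ.filter (fun d => (d ∈ S.R ∧ d ∉ S.B) ∨ (d ∈ S.X ∧ ¬ S.Hc T z d)), t (T.a d) =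
      ∑ d ∈ Finset.univ.filter (fun d => (d ∈ S.R ∧ d ∉ S.B) ∨ (d ∈ S.X ∧ ¬ S.Hc T z d)), t d :=
    Finset.sum_equiv T.a (fun d => by
      rw [Finset.mem_filter, Finset.mem_filter]
      exact ⟨fun h1 => ⟨Finset.mem_univ _, (hEA d).2 h1.2⟩, fun h1 => ⟨Finset.mem_univ _, (hEA d).1 h1.2⟩⟩) fun d _ => rfl
  have ha2 : ∑ d ∈ Finset.univ.filter (fun d => (d ∈ S.R ∧ d ∉ S.B) ∨ (d ∈ S.X ∧ ¬ S.Hc T z d)), t (T.a d) =
      - ∑ d ∈ Finset.univ.filter (fun d => (d ∈ S.R ∧ d ∉ S.B) ∨ (d ∈ S.X ∧ ¬ S.Hc T z d)), t d := by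
    rw [← Finset.sum_neg_distrib]
    apply Finset.sum_congr rfl
    intro d hd
    exact ht d (Finset.mem_filter.1 hd).2
  have h0 : ∑ d ∈ Finset.univ.filter (fun d => (d ∈ S.R ∧ d ∉ S.B) ∨ (d ∈ S.X ∧ ¬ S.Hc T z d)), t d = 0 := by
    linarith
  have hdisj : Disjoint (Finset.univ.filter (fun d => (d ∈ S.R ∧ d ∉ S.B) ∨ (d ∈ S.X ∧ ¬ S.Hc T z d)))
      (Finset.univ.filter (fun e => e ∈ S.hw z)) := by
    rw [Finset.disjoint_left]
    intro d hd he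
    have hd' := (Finset.mem_filter.1 hd).2
    have he' := (Finset.mem_filter.1 he).2
    rcases hd' with h1 | h1
    · exact h1.2 ((Part.mem_hw S hz).1 he').1
    · exact h1.2 (Part.hc_hole hz he')
  have hun : Finset.univ.filter (fun d => d ∈ S.R ∨ (d ∈ S.X ∧ ¬ S.Hc T z d)) =
      Finset.univ.filter (fun d => (d ∈ S.R ∧ d ∉ S.B) ∨ (d ∈ S.X ∧ ¬ S.Hc T z d)) ∪
      Finset.univ.filter (fun e => e ∈ S.hw z) := by
    ext d
    rw [Finset.mem_union, Finset.mem_filter, Finset.mem_filter, Finset.mem_filter]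
    constructor
    · rintro ⟨_, h1⟩
      rcases h1 with h1 | h1
      · by_cases hB : d ∈ S.B
        · by_cases h2 : S.Hc T z d
          · exact Or.inr ⟨Finset.mem_univ _, hu d hB h2⟩
          · exact Or.inl ⟨Finset.mem_univ _, Or.inr ⟨Or.inr hB, h2⟩⟩
        · exact Or.inl ⟨Finset.mem_univ _, Or.inl ⟨h1, hB⟩⟩
      · exact Or.inl ⟨Finset.mem_univ _, Or.inr h1⟩
    · rintro (⟨_, h1⟩ | ⟨_, h1⟩)
      · rcases h1 with h1 | h1
        · exact ⟨Finset.mem_univ _, Or.inl h1.1⟩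
        · exact ⟨Finset.mem_univ _, Or.inr h1⟩
      · exact ⟨Finset.mem_univ _, Or.inl ((Part.mem_hw S hz).1 h1).1.1⟩
  have hF : ∑ d ∈ Finset.univ.filter (fun d => d ∈ S.R ∨ (d ∈ S.X ∧ ¬ S.Hc T z d)), t d =
      ∑ e ∈ Finset.univ.filter (fun e => e ∈ S.hw z), t e := by
    rw [hun, Finset.sum_union hdisj, h0, zero_add]
  rw [Finset.sum_add_distrib, Finset.sum_add_distrib, hf2, hf, hF]
  ring

private theorem area_swap (x y : D → ℝ) : T.Area x y = - T.Area y x := by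
  unfold SST.Tri.Area
  rw [← Finset.sum_neg_distrib]
  refine Finset.sum_congr rfl fun d _ => ?_
  ring

private theorem area_exp (w1 w2 y1 y2 : D → ℝ) (lam : ℝ) :
    T.Area (fun d => w1 d + y1 d) (fun d => w2 d + lam * y2 d) =
      T.Area w1 w2 + lam * T.Area w1 y2 + T.Area y1 w2 + lam * T.Area y1 y2 := by
  unfold SST.Tri.Area
  rw [Finset.mul_sum, Finset.mul_sum, ← Finset.sum_add_distrib, ← Finset.sum_add_distrib,
    ← Finset.sum_add_distrib]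
  refine Finset.sum_congr rfl fun d _ => ?_
  ring

omit [Fintype D] in
private theorem coc_lin {x y : D → ℝ} (hx : T.IsCoc x) (hy : T.IsCoc y) (c : ℝ) :
    T.IsCoc fun d => x d + c * y d := by
  refine ⟨fun d => ?_, fun d => ?_⟩
  · show x (T.a d) + c * y (T.a d) = - (x d + c * y d)
    rw [hx.1, hy.1]
    ring
  · have h1 := hx.2 d
    have h2 := hy.2 d
    show x d + c * y d + (x (T.f d) + c * y (T.f d)) + (x (T.f (T.f d)) + c * y (T.f (T.f d))) = 0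
    linear_combination h1 + c * h2

private theorem hol_central' {l : D → Hs} {c : List D} (h : ∀ e ∈ c, (l e).p = 0 ∧ (l e).q = 0) :
    hol l c = ⟨0, 0, (c.map fun d => (l d).r).sum⟩ := by
  induction c with
  | nil => rfl
  | cons d c ih =>
    obtain ⟨h1, h2⟩ := h d List.mem_cons_self
    rw [hol_cons, ih fun e he => h e (List.mem_cons_of_mem _ he), Hs.mul_def, h1, h2, List.map_cons, List.sum_cons]
    simp

theorem hei (hT : T.Conn) (h : S.Le T) {z : D} (hz : z ∈ S.B) (hu : ∀ d ∈ S.B, S.Hc T z d → d ∈ S.hw z)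
    {y1 y2 : D → ℝ} (hy1 : y1 ∈ CO.Z T (CO.rev S)) (hy2 : y2 ∈ CO.Z T (CO.rev S)) (hyA : T.Area y1 y2 ≠ 0)
    {w1 w2 q1 q2 : D → ℝ} (hw1 : Grad S T w1 q1) (hw2 : Grad S T w2 q2)
    (h0 : ∀ d ∈ S.X, ¬ S.Hc T z d → w1 d = 0 ∧ w2 d = 0) (hq : ∀ d ∈ S.B, ¬ S.Hc T z d → q1 d = 0 ∧ q2 d = 0)
    (hwA : T.Area w1 w2 ≠ 0) : ¬ T.NullHtp (S.hw z) := by
  obtain ⟨hw1, hq1, hg1⟩ := hw1
  obtain ⟨hw2, hq2, hg2⟩ := hw2
  obtain ⟨hy1, hs1⟩ := hy1
  obtain ⟨hy2, hs2⟩ := hy2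
  have hyX : ∀ d ∈ S.X, y1 d = 0 ∧ y2 d = 0 := fun d hd =>
    ⟨hs1 d (CO.not_mem_rev.2 hd), hs2 d (CO.not_mem_rev.2 hd)⟩
  have cross : ∀ {w q y : D → ℝ}, Grad S T w q → T.IsCoc y → (∀ d ∈ S.X, y d = 0) → T.Area w y = 0 := by
    intro w q y hw hy hyX
    rw [area_form h hw hy]
    have e1 : ∑ e ∈ Finset.univ.filter (fun e => e ∈ S.B), (q (S.nx e) + q e) * y e = 0 :=
      Finset.sum_eq_zero fun e he => by
        rw [hyX e (Or.inr (Finset.mem_filter.1 he).2), mul_zero]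
    have e2 : ∑ d ∈ Finset.univ.filter (fun d => d ∉ S.R), (w d * y (T.f d) - w (T.f d) * y d) = 0 :=
      Finset.sum_eq_zero fun d hd => by
        have hd' := (Finset.mem_filter.1 hd).2
        have hd2 : T.f d ∉ S.R := fun h1 => hd' ((Part.le_f_mem h d).1 h1)
        rw [hyX d (Or.inl hd'), hyX _ (Or.inl hd2)]
        ring
    rw [e1, e2]
    ring
  have ha1 : T.Area w1 y2 = 0 := cross ⟨hw1, hq1, hg1⟩ hy2 fun d hd => (hyX d hd).2
  have ha2 : T.Area y1 w2 = 0 := by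
    rw [area_swap, cross ⟨hw2, hq2, hg2⟩ hy1 fun d hd => (hyX d hd).1, neg_zero]
  set lam : ℝ := - T.Area w1 w2 / T.Area y1 y2 with hlam
  have hlA : lam * T.Area y1 y2 = - T.Area w1 w2 := by
    rw [hlam]
    field_simp
  set X : D → ℝ := fun d => w1 d + y1 d with hX
  set Y : D → ℝ := fun d => w2 d + lam * y2 d with hY
  have hXc : T.IsCoc X := by
    have h1 := coc_lin hw1 hy1 1
    simp only [one_mul] at h1
    exact h1
  have hYc : T.IsCoc Y := coc_lin hw2 hy2 lam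
  have hXY : T.Area X Y = 0 := by
    rw [hX, hY, area_exp, ha1, ha2, hlA]
    ring
  set A : D → ℝ := fun d => - (X d * Y (T.f d) - X (T.f d) * Y d) with hA
  have hAf : ∀ d, A (T.f d) = A d := by
    intro d
    have h1 := hXc.2 d
    have h2 := hYc.2 d
    show - (X (T.f d) * Y (T.f (T.f d)) - X (T.f (T.f d)) * Y (T.f d)) = - (X d * Y (T.f d) - X (T.f d) * Y d)
    linear_combination Y (T.f d) * h1 - X (T.f d) * h2
  have hA0 : ∑ d, A d = 0 := by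
    rw [hA, Finset.sum_neg_distrib]
    have h1 : ∑ d, (X d * Y (T.f d) - X (T.f d) * Y d) = 0 := hXY
    rw [h1, neg_zero]
  obtain ⟨t, ht1, ht2⟩ := T.exists_prim hT hAf hA0
  set l : D → Hs := fun d => ⟨X d, Y d, t d⟩ with hl
  have hlF : Flat T l := heis_flat hXc hYc ht1 ht2
  intro hcon0
  have hcon := hlF.nullHtp hcon0
  set k : D → Hs := fun d => ⟨q1 d, q2 d, 0⟩ with hk
  have hkV : VInv S k := by
    intro d hd hd'
    show (⟨q1 (S.s d), q2 (S.s d), 0⟩ : Hs) = ⟨q1 d, q2 d, 0⟩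
    rw [hq1 d hd hd', hq2 d hd hd']
  set L : D → Hs := gau S k l with hL
  have hLd : ∀ d, L d = (⟨q1 d, q2 d, 0⟩ : Hs) * ⟨X d, Y d, t d⟩ * (⟨q1 (S.f d), q2 (S.f d), 0⟩ : Hs)⁻¹ :=
    fun d => rfl
  have hLp : ∀ d ∈ S.R, (L d).p = y1 d := by
    intro d hd
    rw [hLd, Hs.inv_def, Hs.mul_def, Hs.mul_def]
    show q1 d + (w1 d + y1 d) + -q1 (S.f d) = y1 d
    rw [hg1 d hd]
    ring
  have hLq : ∀ d ∈ S.R, (L d).q = lam * y2 d := by
    intro d hd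
    rw [hLd, Hs.inv_def, Hs.mul_def, Hs.mul_def]
    show q2 d + (w2 d + lam * y2 d) + -q2 (S.f d) = lam * y2 d
    rw [hg2 d hd]
    ring
  set t' : D → ℝ := fun d => if d ∈ S.R then (L d).r else t d with ht'
  -- the other hidden components
  have ht'C : ∀ d, d ∈ S.X → ¬ S.Hc T z d → t' d = t d := by
    intro d hdX hd
    by_cases hR : d ∈ S.R
    · have hB : d ∈ S.B := by
        rcases hdX with h1 | h1
        · exact absurd hR h1
        · exact h1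
      have hnB : S.nx d ∈ S.B := (S.nx_mem).2 hB
      have hnH : ¬ S.Hc T z (S.nx d) := fun h1 => hd (Part.hc_trans h1 (Part.hc_symm (Part.hc_nx hB)))
      obtain ⟨e1, e2⟩ := hq d hB hd
      obtain ⟨e3, e4⟩ := hq _ hnB hnH
      have e5 : q1 (S.f d) = 0 := by rw [hq1.nx hB, e3]
      have e6 : q2 (S.f d) = 0 := by rw [hq2.nx hB, e4]
      show (if d ∈ S.R then (L d).r else t d) = t d
      rw [if_pos hR, hLd, e1, e2, e5, e6, Hs.inv_def, Hs.mul_def, Hs.mul_def]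
      show 0 + t d + (0 * Y d - X d * 0) + -0 + ((0 + X d) * -0 - -0 * (0 + Y d)) = t d
      ring
    · show (if d ∈ S.R then (L d).r else t d) = t d
      rw [if_neg hR]
  have ht'a : ∀ d, (d ∈ S.R ∧ d ∉ S.B) ∨ (d ∈ S.X ∧ ¬ S.Hc T z d) → t' (T.a d) = - t' d := by
    rintro d (⟨hR, hB⟩ | ⟨hdX, hd⟩)
    · have hX' : d ∉ S.X := by
        rintro (h1 | h1)
        · exact h1 hR
        · exact hB h1
      have hX2 : T.a d ∉ S.X := fun h' => hX' ((Part.X_a h d).1 h')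
      have hR2 : T.a d ∈ S.R := by
        by_contra h'
        exact hX2 (Or.inl h')
      show (if T.a d ∈ S.R then (L (T.a d)).r else t (T.a d)) = - (if d ∈ S.R then (L d).r else t d)
      rw [if_pos hR2, if_pos hR, hL, gau_inv h hkV hlF hR hB]
      rfl
    · have h2 : ¬ S.Hc T z (T.a d) := fun h1 => hd (Part.hc_trans h1 (Part.hc_symm (Part.hc_a hdX)))
      rw [ht'C d hdX hd, ht'C _ ((Part.X_a h d).2 hdX) h2, ht1]
  -- the faces
  have hface : ∀ d, d ∈ S.R ∨ (d ∈ S.X ∧ ¬ S.Hc T z d) → t' d + t' (T.f d) + t' (T.f (T.f d)) =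
      -(lam * (y1 d * y2 (T.f d) - y1 (T.f d) * y2 d)) := by
    intro d hd
    by_cases hR : d ∈ S.R
    · have hR1 : T.f d ∈ S.R := (Part.le_f_mem h d).2 hR
      have hR2 : T.f (T.f d) ∈ S.R := (Part.le_f_mem h _).2 hR1
      have hF := gau_face h hkV hlF hR
      rw [← hL, Hs.mul_def, Hs.mul_def, Hs.one_def] at hF
      have hr := congrArg Hs.r hF
      dsimp only at hr
      rw [hLp d hR, hLq d hR, hLp _ hR1, hLq _ hR1, hLp _ hR2, hLq _ hR2] at hr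
      have e1 := hy1.2 d
      have e2 := hy2.2 d
      show (if d ∈ S.R then (L d).r else t d) + (if T.f d ∈ S.R then (L (T.f d)).r else t (T.f d)) +
        (if T.f (T.f d) ∈ S.R then (L (T.f (T.f d))).r else t (T.f (T.f d))) = _
      rw [if_pos hR, if_pos hR1, if_pos hR2]
      linear_combination hr - lam * (y1 d + y1 (T.f d)) * e2 + lam * (y2 d + y2 (T.f d)) * e1
    · have hR1 : T.f d ∉ S.R := fun h' => hR ((Part.le_f_mem h d).1 h')
      have hR2 : T.f (T.f d) ∉ S.R := fun h' => hR1 ((Part.le_f_mem h _).1 h')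
      obtain ⟨hdX, hd⟩ := hd.resolve_left hR
      have hd1 : ¬ S.Hc T z (T.f d) := fun h1 => hd (Part.hc_trans h1 (Part.hc_symm (Part.hc_f hR)))
      show (if d ∈ S.R then (L d).r else t d) + (if T.f d ∈ S.R then (L (T.f d)).r else t (T.f d)) +
        (if T.f (T.f d) ∈ S.R then (L (T.f (T.f d))).r else t (T.f (T.f d))) = _
      rw [if_neg hR, if_neg hR1, if_neg hR2, ht2 d]
      show - ((w1 d + y1 d) * (w2 (T.f d) + lam * y2 (T.f d)) - (w1 (T.f d) + y1 (T.f d)) * (w2 d + lam * y2 d)) = _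
      rw [(h0 d hdX hd).1, (h0 d hdX hd).2, (h0 _ (Or.inl hR1) hd1).1, (h0 _ (Or.inl hR1) hd1).2]
      ring
  have hst := stokes_c h hz hu ht'a
  have hsum : ∑ d ∈ Finset.univ.filter (fun d => d ∈ S.R ∨ (d ∈ S.X ∧ ¬ S.Hc T z d)),
      (t' d + t' (T.f d) + t' (T.f (T.f d))) = -(lam * T.Area y1 y2) := by
    have h1 : ∑ d ∈ Finset.univ.filter (fun d => d ∈ S.R ∨ (d ∈ S.X ∧ ¬ S.Hc T z d)),
        (t' d + t' (T.f d) + t' (T.f (T.f d))) =
        ∑ d ∈ Finset.univ.filter (fun d => d ∈ S.R ∨ (d ∈ S.X ∧ ¬ S.Hc T z d)),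
          -(lam * (y1 d * y2 (T.f d) - y1 (T.f d) * y2 d)) :=
      Finset.sum_congr rfl fun d hd => hface d (Finset.mem_filter.1 hd).2
    have h2 : ∑ d ∈ Finset.univ.filter (fun d => d ∈ S.R ∨ (d ∈ S.X ∧ ¬ S.Hc T z d)),
          -(lam * (y1 d * y2 (T.f d) - y1 (T.f d) * y2 d)) =
        ∑ d, -(lam * (y1 d * y2 (T.f d) - y1 (T.f d) * y2 d)) := by
      refine Finset.sum_subset (Finset.filter_subset _ _) fun d _ hd => ?_
      have hd' : ¬ (d ∈ S.R ∨ (d ∈ S.X ∧ ¬ S.Hc T z d)) := fun h' => hd (Finset.mem_filter.2 ⟨Finset.mem_univ _, h'⟩)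
      have hdR : d ∉ S.R := fun h' => hd' (Or.inl h')
      rw [(hyX d (Or.inl hdR)).1, (hyX d (Or.inl hdR)).2]
      ring
    rw [h1, h2, Finset.sum_neg_distrib, ← Finset.mul_sum]
    rfl
  -- the holonomy
  have hper : ∀ e ∈ S.hw z, e ∈ S.B := fun e he => ((S.mem_hw hz).1 he).1
  have hc := hol_central' (l := L) (c := S.hw z) (fun e he => by
    have hB := hper e he
    rw [hLp e hB.1, hLq e hB.1, (hyX e (Or.inr hB)).1, (hyX e (Or.inr hB)).2]
    exact ⟨rfl, mul_zero _⟩)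
  have hg := gau_hol h hkV hlF hz
  rw [← hL, hcon, mul_one, mul_inv_cancel, hc] at hg
  have hr := congrArg Hs.r hg
  rw [Hs.one_def] at hr
  dsimp only at hr
  have h2 : ((S.hw z).map fun d => (L d).r).sum = ∑ e ∈ Finset.univ.filter (fun e => e ∈ S.hw z), t' e := by
    have h3 := per_hw_eq hz (fun d => (L d).r)
    have h4 : per (fun d => (L d).r) (S.hw z) = ((S.hw z).map fun d => (L d).r).sum := rfl
    rw [← h4, h3]
    refine Finset.sum_congr rfl fun e he => ?_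
    have hB := hper e (Finset.mem_filter.1 he).2
    have hR : e ∈ S.R := hB.1
    show (L e).r = if e ∈ S.R then (L e).r else t e
    rw [if_pos hR]
  rw [h2] at hr
  rw [hsum, hr, hlA, mul_zero, neg_neg] at hst
  exact hwA hst

end SYS.TP
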