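import Pool.Agent.SYS.TP.Defs

/-!
# SYSS-TOPS-NulH: a closed walk with exact dual cocycle is null-homologous

`h : D → ℤ` with `h (T.s e) - h e = - chain l e`.

PLAN.
* `coc_of_turn`: `chain l (T.a e) = - chain l e` (definition of `chain`, `ind_a`, `T.aa`), `T.s (T.a e) = T.f e` (`s_a`): `h (T.f e) - h (T.a e) = chain l e`, so `h (T.f e) + h (T.s e) = h e + h (T.a e)`; antisymmetry of `x e = h (T.f e) - h e`: `T.f (T.a e) = T.s e` (`s_apply`).  The sum over a face telescopes (`T.fff`).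
  Support: `x e ≠ 0` implies `h (T.f e) ≠ 0` or `h e ≠ 0`, so `e ∈ Y` (`Fs`), and `x (T.a e) ≠ 0` so `T.a e ∈ Y`.
* `nul_of_bd`: `x e = u (T.hd e) - u (T.tl e)`.  `k e := h e - u (T.tl e)` (real): `k (T.f e) = k e` (`tl_f`), `k (T.a e) - k e = k (T.s e) - k e` (`s_apply` and invariance under `T.f`) `= h (T.s e) - h e = - chain l e` (`tl_s`).
  Fix `e₀` (no darts: trivial).  `{e | ∃ n : ℤ, k e - k e₀ = n}` contains `e₀` and is closed under `T.a`, `T.f`: it is everything (`T.Conn`).  The integers `n e` give the multiplicities: `chain l e = n e - n (T.a e)`.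
* `rk_zero`: `finrank (VV T E) = 0`, so `VV T E = ⊥` (finite dimensional: `Submodule.finrank_eq_zero`), `(Z T E).map mkQ = ⊥`, `Z T E ≤ ker mkQ = Bd T` (`Submodule.map_eq_bot_iff`? `Submodule.ker_mkQ`).
-/

namespace SYS.TP

open Classical SST GNH Part

variable {D : Type}

private theorem nh_chain_a (T : Tri D) (l : List D) (e : D) : T.chain l (T.a e) = - T.chain l e := by
  unfold SST.Tri.chain
  induction l with
  | nil => rfl
  | cons d l ih =>
    rw [List.map_cons, List.sum_cons, ih, List.map_cons, List.sum_cons, T.aa]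
    ring

private theorem nh_key {T : Tri D} {l : List D} {h : D → ℤ} (hh : ∀ e, h (T.s e) - h e = - T.chain l e) (e : D) :
    h (T.f e) + h (T.s e) = h e + h (T.a e) := by
  have h1 := hh e
  have h2 := hh (T.a e)
  rw [Tri.s_a, nh_chain_a] at h2
  linarith

private theorem nh_anti {T : Tri D} {l : List D} {h : D → ℤ} (hh : ∀ e, h (T.s e) - h e = - T.chain l e) (e : D) :
    ((h (T.f (T.a e)) - h (T.a e) : ℤ) : ℝ) = - ((h (T.f e) - h e : ℤ) : ℝ) := by
  have h1 := nh_key hh e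
  have h2 : T.f (T.a e) = T.s e := rfl
  rw [h2]
  have h3 : h (T.s e) - h (T.a e) = - (h (T.f e) - h e) := by linarith
  rw [h3]
  push_cast
  ring

theorem coc_of_turn {T : Tri D} {l : List D} {h : D → ℤ} (hh : ∀ e, h (T.s e) - h e = - T.chain l e) {Y : Set D}
    (hY : XP.Fs T Y) (hs : ∀ e, h e ≠ 0 → e ∈ Y) :
    (fun e => ((h (T.f e) - h e : ℤ) : ℝ)) ∈ CO.Z T (CO.ins T Y) := by
  have hsup : ∀ e, ((h (T.f e) - h e : ℤ) : ℝ) ≠ 0 → e ∈ Y := by
    intro e he
    by_contra hcon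
    apply he
    have h1 : h e = 0 := by
      by_contra h2
      exact hcon (hs e h2)
    have h2 : h (T.f e) = 0 := by
      by_contra h3
      exact hcon ((hY e).1 (hs _ h3))
    rw [h1, h2]
    simp
  refine ⟨⟨fun e => nh_anti hh e, fun e => ?_⟩, fun e he => ?_⟩
  · show ((h (T.f e) - h e : ℤ) : ℝ) + ((h (T.f (T.f e)) - h (T.f e) : ℤ) : ℝ) +
      ((h (T.f (T.f (T.f e))) - h (T.f (T.f e)) : ℤ) : ℝ) = 0
    rw [T.fff]
    push_cast
    ring
  · by_contra hcon
    apply he
    refine ⟨hsup e hcon, hsup _ ?_⟩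
    show ((h (T.f (T.a e)) - h (T.a e) : ℤ) : ℝ) ≠ 0
    rw [nh_anti hh e]
    exact neg_ne_zero.2 hcon

theorem nul_of_bd {T : Tri D} (hT : T.Conn) {l : List D} {h : D → ℤ} (hh : ∀ e, h (T.s e) - h e = - T.chain l e)
    (hb : (fun e => ((h (T.f e) - h e : ℤ) : ℝ)) ∈ CO.Bd T) : T.NullHom l := by
  obtain ⟨u, hu⟩ := CO.mem_Bd.1 hb
  have hu' : ∀ e, (h (T.f e) : ℝ) - h e = u (T.hd e) - u (T.tl e) := by
    intro e
    have := hu e
    push_cast at this
    exact this
  have kf : ∀ e, (h (T.f e) : ℝ) - u (T.tl (T.f e)) = h e - u (T.tl e) := by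
    intro e
    rw [Tri.tl_f]
    linarith [hu' e]
  have ka : ∀ e, ((h (T.a e) : ℝ) - u (T.tl (T.a e))) - (h e - u (T.tl e)) = ((- T.chain l e : ℤ) : ℝ) := by
    intro e
    have h1 := kf (T.a e)
    have h2 : T.f (T.a e) = T.s e := rfl
    rw [h2, Tri.tl_s] at h1
    have h3 := hh e
    have h4 : (h (T.s e) : ℝ) - h e = ((- T.chain l e : ℤ) : ℝ) := by
      rw [← h3]
      push_cast
      ring
    linarith
  by_cases hne : Nonempty D
  · obtain ⟨e0⟩ := hne
    have hall : {e | ∃ n : ℤ, ((h e : ℝ) - u (T.tl e)) - (h e0 - u (T.tl e0)) = n} = Set.univ := by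
      apply hT
      · exact ⟨e0, 0, by simp⟩
      · rintro e ⟨n, hn⟩
        refine ⟨⟨n + (- T.chain l e), ?_⟩, ⟨n, ?_⟩⟩
        · have h1 := ka e
          push_cast at h1 ⊢
          linarith
        · rw [kf e]
          exact hn
    have hex : ∀ e, ∃ n : ℤ, ((h e : ℝ) - u (T.tl e)) - (h e0 - u (T.tl e0)) = n := by
      intro e
      have : e ∈ {e | ∃ n : ℤ, ((h e : ℝ) - u (T.tl e)) - (h e0 - u (T.tl e0)) = n} := by
        rw [hall]
        trivial
      exact this
    choose n hn using hex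
    refine ⟨n, fun e => ?_, fun e => ?_⟩
    · have h1 := hn (T.f e)
      rw [kf e, hn e] at h1
      exact_mod_cast h1.symm
    · have h1 := hn (T.a e)
      have h2 := hn e
      have h3 := ka e
      have h4 : (n (T.a e) : ℝ) - n e = ((- T.chain l e : ℤ) : ℝ) := by linarith
      have h5 : n (T.a e) - n e = - T.chain l e := by exact_mod_cast h4
      linarith
  · exact ⟨fun _ => 0, fun e => rfl, fun e => absurd ⟨e⟩ hne⟩

theorem rk_zero [Finite D] {T : Tri D} {E : Set D} (h : CO.rk T E = 0) : CO.Z T E ≤ CO.Bd T := by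
  have : Fintype D := Fintype.ofFinite D
  have h1 : CO.VV T E = ⊥ := Submodule.finrank_eq_zero.1 h
  intro x hx
  have h2 : (CO.Bd T).mkQ x ∈ CO.VV T E := Submodule.mem_map_of_mem hx
  rw [h1, Submodule.mem_bot, Submodule.mkQ_apply, Submodule.Quotient.mk_eq_zero] at h2
  exact h2

end SYS.TP
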