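import Pool.Agent.SYS.TP.VTr

/-!
# SYSS-TOPS-NulTr: replacement of a region: null-homologous lists of boundary darts

A 2-chain of `T` with the given boundary is obtained from one of `T` with the region replaced.
-/

namespace SYS.TP

open Classical SST GNH Part

variable {D E : Type} [Finite D] [Finite E] {S : Part D} {U : Part E} {T : Tri D} {T' : Tri E} {χ : D → E}

private theorem chain_zero {D : Type} (T : Tri D) {l : List D} {d : D} (h1 : d ∉ l) (h2 : T.a d ∉ l) : T.chain l d = 0 := by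
  unfold Tri.chain
  apply List.sum_eq_zero
  intro x hx
  rw [List.mem_map] at hx
  obtain ⟨e, he, rfl⟩ := hx
  have h3 : e ≠ d := fun h => h1 (h ▸ he)
  have h4 : e ≠ T.a d := fun h => h2 (h ▸ he)
  unfold Tri.ind
  rw [if_neg h3, if_neg h4]
  rfl

private theorem chain_mapp {D E : Type} (T : Tri D) (T' : Tri E) (χ : D → E) (d : D) :
    ∀ l : List D, (∀ e ∈ l, (χ e = χ d ↔ e = d) ∧ (χ e = T'.a (χ d) ↔ e = T.a d)) →
      T'.chain (l.map χ) (χ d) = T.chain l d := by
  intro l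
  induction l with
  | nil =>
    intro _
    rfl
  | cons x l ih =>
    intro h
    have h1 := ih fun e he => h e (List.mem_cons_of_mem _ he)
    have h2 := h x List.mem_cons_self
    unfold Tri.chain at h1 ⊢
    rw [List.map_cons, List.map_cons, List.map_cons, List.sum_cons, List.sum_cons, h1]
    congr 1
    unfold Tri.ind
    by_cases h3 : x = d
    · by_cases h4 : x = T.a d
      · rw [if_pos h3, if_pos h4, if_pos (h2.1.2 h3), if_pos (h2.2.2 h4)]
      · rw [if_pos h3, if_neg h4, if_pos (h2.1.2 h3), if_neg fun h5 => h4 (h2.2.1 h5)]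
    · by_cases h4 : x = T.a d
      · rw [if_neg h3, if_pos h4, if_neg fun h5 => h3 (h2.1.1 h5), if_pos (h2.2.2 h4)]
      · rw [if_neg h3, if_neg h4, if_neg fun h5 => h3 (h2.1.1 h5), if_neg fun h5 => h4 (h2.2.1 h5)]

theorem nul_tr (h : Rep S U T T' χ) {Y : Set D} (hY : XP.Fs T Y) (hYS : ∀ d ∈ Y, d ∉ S.R)
    (hdc : XP.DC T' (U.R ∪ χ '' Y)) {l : List D} (hl : ∀ d ∈ l, d ∈ XP.bdy T (S.R ∪ Y))
    (hN : T'.NullHom (l.map χ)) : T.NullHom l := by
  obtain ⟨k', hk1, hk2⟩ := hN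
  have hb : ∀ e ∈ l.map χ, e ∈ XP.bdy T' (U.R ∪ χ '' Y) := by
    intro e he
    rw [List.mem_map] at he
    obtain ⟨d, hd, rfl⟩ := he
    exact (bdy_tr h hY hYS (hl d hd)).2
  have hz : ∀ e, e ∈ U.R ∪ χ '' Y → T'.a e ∈ U.R ∪ χ '' Y → T'.chain (l.map χ) e = 0 := by
    intro e h1 h2
    refine chain_zero T' (fun h3 => (hb e h3).2 h2) (fun h3 => (hb _ h3).2 ?_)
    rw [T'.aa]
    exact h1
  have hF := fs_im h hY hYS
  have hκ0 : ∀ e ∈ U.R ∪ χ '' Y, ∀ e' ∈ U.R ∪ χ '' Y, k' e' = k' e := by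
    intro e he e' he'
    have h1 := hdc {x | x ∈ U.R ∪ χ '' Y ∧ k' x = k' e} (fun _ h2 => h2.1) ⟨e, he, rfl⟩
      (fun x hx => ⟨(hF x).2 hx.1, by rw [hk1, hx.2]⟩)
      (fun x hx hx2 => ⟨hx2, by
        have h3 := hk2 x
        rw [hz x hx.1 hx2] at h3
        have h4 := hx.2
        linarith⟩)
    rw [← h1] at he'
    exact he'.2
  obtain ⟨κ, hκ⟩ : ∃ κ : ℤ, ∀ e ∈ U.R ∪ χ '' Y, k' e = κ := by
    by_cases hne : (U.R ∪ χ '' Y).Nonempty
    · obtain ⟨e, he⟩ := hne
      exact ⟨k' e, fun e' he' => hκ0 e he e' he'⟩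
    · exact ⟨0, fun e he => absurd ⟨e, he⟩ hne⟩
  have hX : ∀ d, d ∈ S.X → (if d ∈ S.R then κ else k' (χ d)) = k' (χ d) := by
    intro d hd
    by_cases h1 : d ∈ S.R
    · rw [if_pos h1]
      have h2 : d ∈ S.B := by
        rcases hd with hd | hd
        · exact absurd h1 hd
        · exact hd
      have h3 : χ d ∈ U.B := by
        rw [← h.bd]
        exact ⟨d, h2, rfl⟩
      exact (hκ _ (Or.inl h3.1)).symm
    · rw [if_neg h1]
  have hlX : ∀ e ∈ l, e ∈ S.X := by
    intro e he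
    rcases (bdy_tr h hY hYS (hl e he)).1 with h1 | h1
    · exact Or.inr h1
    · exact Or.inl (hYS e h1)
  refine ⟨fun d => if d ∈ S.R then κ else k' (χ d), fun d => ?_, fun d => ?_⟩
  · show (if T.f d ∈ S.R then κ else k' (χ (T.f d))) = if d ∈ S.R then κ else k' (χ d)
    by_cases hd : d ∈ S.R
    · rw [if_pos hd, if_pos ((le_f_mem h.le d).2 hd)]
    · rw [if_neg hd, if_neg fun h1 => hd ((le_f_mem h.le d).1 h1), ← h.f d hd, hk1]
  · show T.chain l d = (if d ∈ S.R then κ else k' (χ d)) - if T.a d ∈ S.R then κ else k' (χ (T.a d))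
    by_cases hd : d ∈ S.X
    · have hd' : T.a d ∈ S.X := (X_a h.le d).2 hd
      rw [hX d hd, hX _ hd', ← h.a d hd, ← hk2]
      symm
      apply chain_mapp
      intro e he
      refine ⟨⟨fun h1 => h.inj (hlX e he) hd h1, fun h1 => by rw [h1]⟩, ?_⟩
      rw [h.a d hd]
      exact ⟨fun h1 => h.inj (hlX e he) hd' h1, fun h1 => by rw [h1]⟩
    · have hd' : T.a d ∉ S.X := fun h1 => hd ((X_a h.le d).1 h1)
      have h1 : d ∈ S.R := by
        by_contra h2
        exact hd (Or.inl h2)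
      have h1' : T.a d ∈ S.R := by
        by_contra h2
        exact hd' (Or.inl h2)
      rw [if_pos h1, if_pos h1', sub_self]
      refine chain_zero T (fun h2 => (hl d h2).2 (Or.inl h1')) (fun h2 => (hl _ h2).2 ?_)
      rw [T.aa]
      exact Or.inl h1

end SYS.TP
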