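import Pool.Agent.SYS.TP.VTr

/-!
# SYSS-TOPS-NxTr: replacement of a region: the boundary words of the rest correspond

`S2 = cut T (S.R ∪ Y)`, `S1 = cut T' (U.R ∪ χ '' Y)`.  A function on the vertices of `S1` which is the identity on
the boundary darts (`exists_vinv`) and the corresponding function on the vertices of `S2` (`vinv_tr`) are compared
at `T.f d` and at the next boundary dart.
-/

namespace SYS.TP

open Classical SST GNH Part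

variable {D E : Type} [Finite D] [Finite E] {S : Part D} {U : Part E} {T : Tri D} {T' : Tri E} {χ : D → E}

omit [Finite D] in
private theorem nx_le_f {X : Part D} {T : Tri D} (h : X.Le T) {d : D} (hd : d ∈ X.R) : X.f d = T.f d :=
  (h.1 d hd).symm

omit [Finite E] in
private theorem nx_vinvU (hU : U.Le T') {Z : Set E} (h1 : XP.Fs T' (U.R ∪ Z)) {G : Type} {q' : E → G}
    (hq : VInv (XP.cut T' (U.R ∪ Z) h1) q') : VInv U q' := by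
  intro e he hb
  have h2 : U.a e ≠ e := fun h' => hb ⟨he, h'⟩
  have h3 : e ∈ (XP.cut T' (U.R ∪ Z) h1).R := by
    rw [XP.cut_R]
    exact Or.inl he
  have h4 : e ∉ (XP.cut T' (U.R ∪ Z) h1).B := by
    rw [XP.cut_B]
    intro h5
    apply h5.2
    left
    rw [hU.2 e h2]
    exact (mem_R_a U e).2 he
  have h6 := hq e h3 h4
  rw [← le_s (XP.cut_le T' _ h1) h3 h4, le_s hU he hb] at h6
  exact h6

theorem nx_tr (h : Rep S U T T' χ) {Y : Set D} (hY : XP.Fs T Y) (hYS : ∀ d ∈ Y, d ∉ S.R)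
    (h2 : XP.Fs T (S.R ∪ Y)) (h1 : XP.Fs T' (U.R ∪ χ '' Y)) {d : D} (hd : d ∈ XP.bdy T (S.R ∪ Y)) :
    (XP.cut T' (U.R ∪ χ '' Y) h1).nx (χ d) = χ ((XP.cut T (S.R ∪ Y) h2).nx d) := by
  obtain ⟨q', hq', hqe⟩ := exists_vinv (XP.cut T' (U.R ∪ χ '' Y) h1) (id : E → E)
  obtain ⟨q, hq2, hqS, hqq⟩ := vinv_tr h hY hYS h2 h1 hq'
  have hB2 : (XP.cut T (S.R ∪ Y) h2).B = XP.bdy T (S.R ∪ Y) := XP.cut_B T _ h2
  have hB1 : (XP.cut T' (U.R ∪ χ '' Y) h1).B = XP.bdy T' (U.R ∪ χ '' Y) := XP.cut_B T' _ h1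
  have hdB : d ∈ (XP.cut T (S.R ∪ Y) h2).B := by rw [hB2]; exact hd
  obtain ⟨hdc, hdx⟩ := bdy_tr h hY hYS hd
  have hxB : χ d ∈ (XP.cut T' (U.R ∪ χ '' Y) h1).B := by rw [hB1]; exact hdx
  have e1 : (XP.cut T' (U.R ∪ χ '' Y) h1).nx (χ d) = q' (T'.f (χ d)) := by
    have h3 := hq'.nx hxB
    rw [hqe _ ((nx_mem _).2 hxB), nx_le_f (XP.cut_le T' _ h1) hxB.1] at h3
    exact h3.symm
  have hn : (XP.cut T (S.R ∪ Y) h2).nx d ∈ XP.bdy T (S.R ∪ Y) := by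
    rw [← hB2]
    exact (nx_mem _).2 hdB
  obtain ⟨hn1, hn2⟩ := bdy_tr h hY hYS hn
  have e2 : χ ((XP.cut T (S.R ∪ Y) h2).nx d) = q (T.f d) := by
    have h3 := hq2.nx hdB
    rw [hqq _ hn1, hqe _ (by rw [hB1]; exact hn2), nx_le_f (XP.cut_le T _ h2) hdB.1] at h3
    exact h3.symm
  rw [e1, e2]
  rcases hdc with hdS | hdY
  · have h3 : χ d ∈ U.B := by
      rw [← h.bd]
      exact ⟨d, hdS, rfl⟩
    have h4 := (nx_vinvU h.le' h1 hq').nx h3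
    have h5 := hqS.nx hdS
    rw [nx_le_f h.le' h3.1, h.nx d hdS] at h4
    rw [nx_le_f h.le hdS.1, hqq _ (Or.inl ((nx_mem S).2 hdS))] at h5
    rw [h4, h5]
  · rw [h.f d (hYS d hdY), hqq _ (Or.inr ((hY d).2 hdY))]

theorem run_tr (h : Rep S U T T' χ) {Y : Set D} (hY : XP.Fs T Y) (hYS : ∀ d ∈ Y, d ∉ S.R)
    (h2 : XP.Fs T (S.R ∪ Y)) (h1 : XP.Fs T' (U.R ∪ χ '' Y)) {d : D} (hd : d ∈ XP.bdy T (S.R ∪ Y)) (m : ℕ) :
    ((XP.cut T' (U.R ∪ χ '' Y) h1).nx ^ m) (χ d) = χ (((XP.cut T (S.R ∪ Y) h2).nx ^ m) d) ∧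
      run (XP.cut T' (U.R ∪ χ '' Y) h1) (χ d) m = (run (XP.cut T (S.R ∪ Y) h2) d m).map χ := by
  have hB2 : (XP.cut T (S.R ∪ Y) h2).B = XP.bdy T (S.R ∪ Y) := XP.cut_B T _ h2
  have key : ∀ i : ℕ, ((XP.cut T' (U.R ∪ χ '' Y) h1).nx ^ i) (χ d) = χ (((XP.cut T (S.R ∪ Y) h2).nx ^ i) d) ∧
      ((XP.cut T (S.R ∪ Y) h2).nx ^ i) d ∈ XP.bdy T (S.R ∪ Y) := by
    intro i
    induction i with
    | zero => exact ⟨rfl, hd⟩
    | succ i ih =>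
      obtain ⟨k1, k2⟩ := ih
      rw [pow_succ', Equiv.Perm.mul_apply, pow_succ', Equiv.Perm.mul_apply, k1]
      refine ⟨nx_tr h hY hYS h2 h1 k2, ?_⟩
      rw [← hB2] at k2 ⊢
      exact (nx_mem _).2 k2
  refine ⟨(key m).1, ?_⟩
  unfold run
  rw [List.map_map]
  exact List.map_congr_left fun i _ => (key i).1

end SYS.TP
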