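import Pool.Agent.SYS.TP.Defs
import Pool.Agent.SYS.XP.Cut

/-!
# SYSS-TOPS-One: a null-homologous hole is the only hole of its hidden component

PLAN.  `S = cut T Y`, `S.B = bdy T Y`: `T.a e ∉ Y` for `e ∈ S.B`.  `W = S.hw z` (distinct boundary darts), `chain W d = k d - k (T.a d)`.  For `d` and `T.a d` in `Y` neither is in `W`: `chain W d = 0`; so `k` is constant `= κ` on `Y` (`DC` for `{d ∈ Y | k d = k z}`).  `chain W e = 1` for `e ∈ W` (`hw_nodup`; `T.a e` is not in `W`), `= 0` for `e ∈ S.B \ W`.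
`k1 d := k d` for `d ∉ Y`, `k1 d := k (T.a d)` for `d ∈ Y`.  `Hc z d → k1 z = k1 d` (`hc_ind` with `P d e := k1 d = k1 e`, steps inside `S.X`): `T.a`: for `d, T.a d ∉ Y`: the chain vanishes at `d`; for `d ∈ S.B`: `k1 d = k (T.a d) = k1 (T.a d)`; the same for `T.a d ∈ S.B`; `T.f`: `k (T.f d) = k d`; `nx` on `S.B`: `d ∈ W ↔ nx d ∈ W` (`mem_hw`, same cycle), and for `e ∈ S.B`:
`k1 e = k (T.a e) = κ - chain W e` is `κ - 1` on `W` and `κ` outside.  So `d ∈ S.B`, `Hc z d` gives `k1 d = k1 z = κ - 1`, `d ∈ W`.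
-/

namespace SYS.TP

open Classical SST GNH Part

variable {D : Type}

private theorem one_chain (T : Tri D) {W : List D} (hW : W.Nodup) (d : D) :
    T.chain W d = (if d ∈ W then 1 else 0) - (if T.a d ∈ W then 1 else 0) := by
  induction W with
  | nil => simp [SST.Tri.chain]
  | cons e W ih =>
    obtain ⟨h1, h2⟩ := List.nodup_cons.1 hW
    have h3 : T.chain (e :: W) d = (SST.Tri.ind e d - SST.Tri.ind e (T.a d)) + T.chain W d := by
      unfold SST.Tri.chain
      rw [List.map_cons, List.sum_cons]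
    have key : ∀ x : D, ((if x ∈ e :: W then 1 else 0 : ℤ)) = SST.Tri.ind e x + (if x ∈ W then 1 else 0) := by
      intro x
      unfold SST.Tri.ind
      by_cases hx : e = x
      · subst hx
        simp [h1]
      · have hx' : x ≠ e := fun h => hx h.symm
        simp [hx, hx', List.mem_cons]
    rw [h3, ih h2, key d, key (T.a d)]
    ring

private theorem one_nx [Finite D] {S : Part D} {z d : D} (hz : z ∈ S.B) (hd : d ∈ S.B) :
    d ∈ S.hw z ↔ S.nx d ∈ S.hw z := by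
  have h1 : S.s.SameCycle d (S.nx d) := by
    obtain ⟨j, h1, -, -⟩ := ret_spec S.s hd
    have h2 : S.nx d = (S.s ^ (j + 1)) d := h1
    rw [h2]
    exact ⟨(j + 1 : ℕ), by rw [zpow_natCast]⟩
  rw [mem_hw S hz, mem_hw S hz]
  constructor
  · rintro ⟨-, h3⟩
    exact ⟨(nx_mem S).2 hd, h3.trans h1⟩
  · rintro ⟨-, h3⟩
    exact ⟨hd, h3.trans h1.symm⟩

theorem one_hole [Finite D] {T : Tri D} {Y : Set D} (hY : XP.Fs T Y) (hdc : XP.DC T Y) {z : D} (hz : z ∈ XP.bdy T Y)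
    (hN : T.NullHom ((XP.cut T Y hY).hw z)) :
    ∀ d ∈ (XP.cut T Y hY).B, (XP.cut T Y hY).Hc T z d → d ∈ (XP.cut T Y hY).hw z := by
  obtain ⟨k, hk1, hk2⟩ := hN
  have hB : (XP.cut T Y hY).B = XP.bdy T Y := XP.cut_B T Y hY
  have hR : (XP.cut T Y hY).R = Y := XP.cut_R T Y hY
  have hzB : z ∈ (XP.cut T Y hY).B := by
    rw [hB]
    exact hz
  obtain ⟨W, hW⟩ : ∃ W, W = (XP.cut T Y hY).hw z := ⟨_, rfl⟩
  have hWn : W.Nodup := by
    rw [hW]
    exact hw_nodup _ hzB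
  have hWB : ∀ e ∈ W, e ∈ Y ∧ T.a e ∉ Y := by
    intro e he
    rw [hW] at he
    have h1 := ((mem_hw _ hzB).1 he).1
    rw [hB] at h1
    exact h1
  rw [← hW] at hk2
  have hch : ∀ d, (if d ∈ W then (1 : ℤ) else 0) - (if T.a d ∈ W then 1 else 0) = k d - k (T.a d) := by
    intro d
    rw [← one_chain T hWn d]
    exact hk2 d
  -- constant on Y
  have hin : ∀ d, d ∈ Y → T.a d ∈ Y → k (T.a d) = k d := by
    intro d hd hd'
    have h1 := hch d
    rw [if_neg (fun h => (hWB d h).2 hd'), if_neg (fun h => (hWB _ h).2 (by rw [T.aa]; exact hd))] at h1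
    linarith
  have hconst : ∀ d ∈ Y, k d = k z := by
    have h1 : {d | d ∈ Y ∧ k d = k z} = Y := by
      refine hdc _ (fun d hd => hd.1) ⟨z, hz.1, rfl⟩ ?_ ?_
      · rintro d ⟨hd, hkd⟩
        exact ⟨(hY d).2 hd, by rw [hk1, hkd]⟩
      · rintro d ⟨hd, hkd⟩ had
        exact ⟨had, by rw [hin d hd had, hkd]⟩
    intro d hd
    rw [← h1] at hd
    exact hd.2
  have hbd : ∀ e, e ∈ Y → T.a e ∉ Y → k (T.a e) = k z - (if e ∈ W then 1 else 0) := by
    intro e he he'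
    have h1 := hch e
    rw [if_neg (fun h => he' (hWB _ h).1), hconst e he] at h1
    linarith
  have hout : ∀ d, d ∉ Y → T.a d ∉ Y → k (T.a d) = k d := by
    intro d hd hd'
    have h1 := hch d
    rw [if_neg (fun h => hd (hWB d h).1), if_neg (fun h => hd' (hWB _ h).1)] at h1
    linarith
  obtain ⟨k1, hk1'⟩ : ∃ k1 : D → ℤ, k1 = fun d => if d ∈ Y then k (T.a d) else k d := ⟨_, rfl⟩
  have k1Y : ∀ d ∈ Y, k1 d = k (T.a d) := fun d hd => by rw [hk1']; simp [hd]
  have k1N : ∀ d, d ∉ Y → k1 d = k d := fun d hd => by rw [hk1']; simp [hd]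
  intro d hd hzd
  have hmain : k1 z = k1 d := by
    refine hc_ind (S := XP.cut T Y hY) (T := T) (fun d e => k1 d = k1 e) (fun _ => rfl)
      (fun _ _ h => h.symm) (fun _ _ _ h h' => h.trans h') ?_ ?_ ?_ hzd
    · intro d hdX
      by_cases hdY : d ∈ Y
      · have hdB : d ∈ (XP.cut T Y hY).B := hdX.resolve_left (fun h => h (by rw [hR]; exact hdY))
        rw [hB] at hdB
        rw [k1Y d hdY, k1N _ hdB.2]
      · by_cases hadY : T.a d ∈ Y
        · rw [k1N d hdY, k1Y _ hadY, T.aa]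
        · rw [k1N d hdY, k1N _ hadY, hout d hdY hadY]
    · intro d hdR
      rw [hR] at hdR
      have h1 : T.f d ∉ Y := fun h => hdR ((hY d).1 h)
      rw [k1N d hdR, k1N _ h1, hk1]
    · intro d hdB
      have h1 : (XP.cut T Y hY).nx d ∈ (XP.cut T Y hY).B := (nx_mem _).2 hdB
      have h2 := one_nx hzB hdB
      rw [← hW] at h2
      rw [hB] at hdB h1
      rw [k1Y d hdB.1, k1Y _ h1.1, hbd d hdB.1 hdB.2, hbd _ h1.1 h1.2]
      by_cases h3 : d ∈ W
      · rw [if_pos h3, if_pos (h2.1 h3)]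
      · rw [if_neg h3, if_neg (fun h => h3 (h2.2 h))]
  have hzW : z ∈ W := by
    rw [hW]
    exact (mem_hw _ hzB).2 ⟨hzB, Equiv.Perm.SameCycle.refl _ _⟩
  rw [← hW]
  rw [hB] at hd
  rw [k1Y z hz.1, k1Y d hd.1, hbd z hz.1 hz.2, hbd d hd.1 hd.2, if_pos hzW] at hmain
  by_contra hno
  rw [if_neg hno] at hmain
  linarith

end SYS.TP
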