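import Pool.Agent.SYS.TP.Defs
import Pool.Agent.SYS.CO.Flw
import Pool.Agent.SST.D.Rad
import Pool.Agent.SST.D.Lift

/-!
# SYSS-TOPS-Orth: a cocycle which is orthogonal to the cocycles inside a region is a gradient on the region
-/

namespace SYS.TP

open Classical SST GNH Part

variable {D : Type} [Fintype D]

theorem area_pair {T : Tri D} {y : D → ℝ} (hy : T.IsCoc y) {h : D → ℝ} (hh : T.InH h) :
    T.Area y (T.xx h) = 3 * ∑ d, y d * T.zz h d := by
  obtain ⟨h', hh', rfl⟩ := T.liftx hy
  rw [T.Area_xx, T.Om_z hh' hh]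
  have h1 : ∑ d, h' (T.f d) * T.zz h d = - ∑ d, h' (T.s d) * T.zz h d := by
    rw [← Equiv.sum_comp T.a (fun d => h' (T.f d) * T.zz h d), ← Finset.sum_neg_distrib]
    refine Finset.sum_congr rfl fun d _ => ?_
    rw [T.zz_anti hh, T.s_apply]
    ring
  have h2 : ∑ d, T.xx h' d * T.zz h d = ∑ d, h' (T.f d) * T.zz h d - ∑ d, h' d * T.zz h d := by
    rw [← Finset.sum_sub_distrib]
    refine Finset.sum_congr rfl fun d _ => ?_
    rw [Tri.xx]
    ring
  have h3 : ∑ d, (h' d + h' (T.s d)) * T.zz h d = ∑ d, h' d * T.zz h d + ∑ d, h' (T.s d) * T.zz h d := by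
    rw [← Finset.sum_add_distrib]
    refine Finset.sum_congr rfl fun d _ => ?_
    ring
  rw [h2, h1, h3]
  ring

theorem area_bd {T : Tri D} {y x : D → ℝ} (hy : y ∈ CO.Bd T) (hx : T.IsCoc x) : T.Area y x = 0 := by
  obtain ⟨u, hu⟩ := hy
  obtain ⟨h, hh, rfl⟩ := T.liftx hx
  have hq : ∀ d, (fun d => u (T.tl d)) (T.s d) = (fun d => u (T.tl d)) d := fun d => by
    show u (T.tl (T.s d)) = u (T.tl d)
    rw [T.tl_s]
  have hy' : y = T.xx fun d => u (T.tl d) := by
    funext d
    rw [hu d, Tri.xx, T.tl_f]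
  rw [hy', T.Area_xx, T.Om_swap, T.Om_vertex hh hq]
  ring

private theorem f2_ne (T : Tri D) (d : D) : T.f (T.f d) ≠ d := by
  intro h
  have h1 := congrArg T.f h
  rw [T.fff] at h1
  exact T.fne d h1.symm

private theorem f_iff (T : Tri D) (c d : D) : T.f c = d ↔ c = T.f (T.f d) := by
  constructor
  · rintro rfl
    rw [T.fff]
  · rintro rfl
    rw [T.fff]

private theorem ff_iff (T : Tri D) (c d : D) : T.f (T.f c) = d ↔ c = T.f d := by
  constructor
  · rintro rfl
    rw [T.fff]
  · rintro rfl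
    rw [T.fff]

private theorem fci_sum (T : Tri D) (d c : D) : fci T d c =
    (if c = d then 1 else 0) + (if c = T.f d then 1 else 0) + (if c = T.f (T.f d) then 1 else 0) := by
  unfold fci
  by_cases h1 : c = d
  · subst h1
    rw [if_pos (Or.inl rfl), if_pos rfl, if_neg (T.fne c).symm, if_neg (f2_ne T c).symm]
    ring
  · by_cases h2 : c = T.f d
    · subst h2
      rw [if_pos (Or.inr (Or.inl rfl)), if_neg h1, if_pos rfl, if_neg (T.fne _).symm]
      ring
    · by_cases h3 : c = T.f (T.f d)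
      · rw [if_pos (Or.inr (Or.inr h3)), if_neg h1, if_neg h2, if_pos h3]
        ring
      · rw [if_neg (by rintro (h | h | h) <;> contradiction), if_neg h1, if_neg h2, if_neg h3]
        ring

private theorem fci_f (T : Tri D) (d c : D) : fci T (T.f d) c = fci T d c := by
  rw [fci_sum, fci_sum, T.fff]
  ring

/-- the flow through one edge -/
private noncomputable def ev (x y : D) (c : D) : ℝ := (if c = x then 1 else 0) - (if c = y then 1 else 0)

private theorem dvg_ev (T : Tri D) (x y c : D) : dvg T (ev x y) c = fci T x c - fci T y c := by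
  have h : ∀ z : D, (if c = z then (1 : ℝ) else 0) + (if T.f c = z then 1 else 0) +
      (if T.f (T.f c) = z then 1 else 0) = fci T z c := by
    intro z
    rw [fci_sum]
    simp only [f_iff T c z, ff_iff T c z]
    ring
  rw [← h x, ← h y]
  unfold dvg ev
  ring

private theorem dvg_sub (T : Tri D) (w w' : D → ℝ) (d : D) :
    dvg T (fun c => w c - w' c) d = dvg T w d - dvg T w' d := by
  unfold dvg
  ring

private theorem asy_sub {T : Tri D} {w w' : D → ℝ} (h : ASy T w) (h' : ASy T w') : ASy T fun c => w c - w' c := by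
  intro d
  show w (T.a d) - w' (T.a d) = -(w d - w' d)
  rw [h d, h' d]
  ring

private theorem asy_ev (T : Tri D) (d : D) : ASy T (ev d (T.a d)) := by
  intro c
  have e1 : T.a c = d ↔ c = T.a d := by
    constructor
    · rintro rfl
      rw [T.aa]
    · rintro rfl
      rw [T.aa]
  have e2 : T.a c = T.a d ↔ c = d := T.a.injective.eq_iff
  unfold ev
  simp only [e1, e2]
  ring

theorem grad_of_orth {T : Tri D} {S : Part D} (h : S.Le T) (hS : S.Con) {x : D → ℝ} (hx : T.IsCoc x)
    (ho : ∀ y ∈ CO.Z T (CO.rev S), T.Area y x = 0) : ∃ q, Grad S T x q := by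
  obtain ⟨h', hh', rfl⟩ := T.liftx hx
  by_cases hne : ∃ d₀, d₀ ∈ S.R
  · obtain ⟨d₀, hd₀⟩ := hne
    have hrev := CO.rev_a h
    have hlk := (CO.con_lk h).1 hS
    have hex : ∀ d, ∃ w : D → ℝ, d ∈ S.R → (ASy T w ∧ (∀ c, c ∉ CO.rev S → w c = 0) ∧
        ∀ c, dvg T w c = fci T d c - fci T d₀ c) := by
      intro d
      by_cases hd : d ∈ S.R
      · obtain ⟨w, hw⟩ := CO.lk_flow hrev (hlk d hd d₀ hd₀)
        exact ⟨w, fun _ => hw⟩
      · exact ⟨fun _ => 0, fun h1 => absurd h1 hd⟩
    choose w hw using hex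
    have orth : ∀ y : D → ℝ, ASy T y → (∀ c, c ∉ CO.rev S → y c = 0) → (∀ c, dvg T y c = 0) →
        ∑ c, y c * T.zz h' c = 0 := by
      intro y h1 h2 h3
      have h4 : T.IsCoc y := (isCoc_iff T y).2 ⟨h1, h3⟩
      have h5 := area_pair h4 hh'
      rw [ho y ⟨h4, h2⟩] at h5
      linarith
    set k : D → ℝ := fun d => if d ∈ S.R then (1 / 2) * ∑ c, w d c * T.zz h' c else 0 with hk
    have hfR : ∀ d, d ∈ S.R → T.f d ∈ S.R := fun d hd => (Part.le_f_mem h d).2 hd
    have hkf : ∀ d ∈ S.R, k (T.f d) = k d := by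
      intro d hd
      obtain ⟨a1, a2, a3⟩ := hw d hd
      obtain ⟨b1, b2, b3⟩ := hw _ (hfR d hd)
      have h1 := orth (fun c => w (T.f d) c - w d c) (asy_sub b1 a1)
        (fun c hc => by
          show w (T.f d) c - w d c = 0
          rw [a2 c hc, b2 c hc, sub_zero])
        (fun c => by
          rw [dvg_sub, a3, b3, fci_f]
          ring)
      have h2 : ∑ c, (w (T.f d) c - w d c) * T.zz h' c = ∑ c, w (T.f d) c * T.zz h' c - ∑ c, w d c * T.zz h' c := by
        rw [← Finset.sum_sub_distrib]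
        exact Finset.sum_congr rfl fun c _ => by ring
      rw [h2] at h1
      simp only [hk]
      rw [if_pos hd, if_pos (hfR d hd)]
      linarith
    have hka : ∀ d ∈ S.R, d ∉ S.B → k d - k (T.a d) = T.zz h' d := by
      intro d hd hB
      have hne : S.a d ≠ d := fun h1 => hB ⟨hd, h1⟩
      have haR : T.a d ∈ S.R := by
        rw [h.2 d hne]
        exact (Part.mem_R_a S d).2 hd
      have hdr : d ∈ CO.rev S := hne
      have har : T.a d ∈ CO.rev S := (hrev d).2 hdr
      obtain ⟨a1, a2, a3⟩ := hw d hd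
      obtain ⟨b1, b2, b3⟩ := hw _ haR
      have h1 := orth (fun c => (w d c - w (T.a d) c) - ev d (T.a d) c) (asy_sub (asy_sub a1 b1) (asy_ev T d))
        (fun c hc => by
          show (w d c - w (T.a d) c) - ev d (T.a d) c = 0
          have e1 : c ≠ d := fun h2 => hc (h2 ▸ hdr)
          have e2 : c ≠ T.a d := fun h2 => hc (h2 ▸ har)
          rw [a2 c hc, b2 c hc, ev, if_neg e1, if_neg e2]
          ring)
        (fun c => by
          rw [dvg_sub, dvg_sub, a3, b3, dvg_ev]
          ring)
      have h2 : ∑ c, ((w d c - w (T.a d) c) - ev d (T.a d) c) * T.zz h' c =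
          ∑ c, w d c * T.zz h' c - ∑ c, w (T.a d) c * T.zz h' c - ∑ c, ev d (T.a d) c * T.zz h' c := by
        rw [← Finset.sum_sub_distrib, ← Finset.sum_sub_distrib]
        exact Finset.sum_congr rfl fun c _ => by ring
      have h3 : ∑ c, ev d (T.a d) c * T.zz h' c = 2 * T.zz h' d := by
        have h4 : ∀ c, ev d (T.a d) c * T.zz h' c =
            (if c = d then T.zz h' c else 0) - (if c = T.a d then T.zz h' c else 0) := by
          intro c
          unfold ev
          rw [sub_mul, ite_mul, ite_mul]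
          simp only [one_mul, zero_mul]
        simp only [h4]
        rw [Finset.sum_sub_distrib, Finset.sum_ite_eq' Finset.univ d, Finset.sum_ite_eq' Finset.univ (T.a d),
          if_pos (Finset.mem_univ _), if_pos (Finset.mem_univ _), T.zz_anti hh']
        ring
      rw [h2, h3] at h1
      simp only [hk]
      rw [if_pos hd, if_pos haR]
      linarith
    refine ⟨fun d => h' d + k d, ⟨T.xx_coc hh', ?_, ?_⟩⟩
    · intro d hd hB
      have hne : S.a d ≠ d := fun h1 => hB ⟨hd, h1⟩
      have haR : T.a d ∈ S.R := by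
        rw [h.2 d hne]
        exact (Part.mem_R_a S d).2 hd
      show h' (S.s d) + k (S.s d) = h' d + k d
      have e1 : S.s d = T.s d := (Part.le_s h hd hB).symm
      have e2 : T.s d = T.f (T.a d) := T.s_apply d
      have e3 := hka d hd hB
      have e4 := hkf _ haR
      rw [Tri.zz] at e3
      rw [e1]
      have e5 : k (T.s d) = k (T.a d) := by rw [e2]; exact e4
      rw [e5]
      linarith
    · intro d hd
      have e1 : S.f d = T.f d := (h.1 d hd).symm
      show T.xx h' d = h' (S.f d) + k (S.f d) - (h' d + k d)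
      rw [e1, hkf d hd, Tri.xx]
      ring
  · refine ⟨h', ⟨T.xx_coc hh', ?_, ?_⟩⟩
    · intro d hd
      exact absurd ⟨d, hd⟩ hne
    · intro d hd
      exact absurd ⟨d, hd⟩ hne

end SYS.TP
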