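import Pool.Agent.SYS.TP.Defs

/-!
# SYSS-TOPS-Run: sublists of a boundary word
-/

namespace SYS.TP

open Classical SST GNH Part

variable {D : Type} [Finite D] {S : Part D} {T : Tri D}

private theorem pow_mem' {d : D} (hd : d ∈ S.B) (i : ℕ) : (S.nx ^ i) d ∈ S.B := by
  induction i with
  | zero => exact hd
  | succ i ih =>
    rw [pow_succ', Equiv.Perm.mul_apply, nx_mem]
    exact ih

private theorem hd_nx' (h : S.Le T) {d : D} (hd : d ∈ S.B) :
    T.hd d = T.tl (S.nx d) := by
  obtain ⟨j, h1, h2, h3⟩ := ret_spec S.s hd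
  have h0 : S.s d = T.f d := by
    rw [s_apply, hd.2]
    exact (h.1 d hd.1).symm
  have key : ∀ i ≤ j, (S.s ^ (i + 1)) d ∈ S.R ∧ T.tl ((S.s ^ (i + 1)) d) = T.hd d := by
    intro i
    induction i with
    | zero =>
      intro _
      rw [zero_add, pow_one]
      refine ⟨(mem_R_s S d).2 hd.1, ?_⟩
      rw [h0, SST.Tri.tl_f]
    | succ i ih =>
      intro hi
      obtain ⟨h4, h5⟩ := ih (by omega)
      have h6 : (S.s ^ (i + 1 + 1)) d = S.s ((S.s ^ (i + 1)) d) := by
        rw [pow_succ', Equiv.Perm.mul_apply]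
      rw [h6]
      refine ⟨(mem_R_s S _).2 h4, ?_⟩
      rw [← le_s h h4 (h3 i (by omega)), SST.Tri.tl_s, h5]
  have h4 := (key j le_rfl).2
  rw [← h1] at h4
  exact h4.symm

private theorem run_succ (d : D) (m : ℕ) : run S d (m + 1) = run S d m ++ [(S.nx ^ m) d] := by
  unfold run
  rw [List.range_succ, List.map_append]
  rfl

theorem run_walk (h : S.Le T) {d : D} (hd : d ∈ S.B) (m : ℕ) :
    T.IsWalk (T.tl d) (run S d m) (T.tl ((S.nx ^ m) d)) := by
  induction m with
  | zero => exact rfl
  | succ m ih =>
    rw [run_succ]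
    refine T.walk_append ih ?_
    rw [pow_succ', Equiv.Perm.mul_apply, ← hd_nx' h (pow_mem' hd m)]
    exact T.walk_single _

theorem run_mem {d : D} (hd : d ∈ S.B) {m : ℕ} {e : D} (he : e ∈ run S d m) : e ∈ S.B := by
  unfold run at he
  obtain ⟨i, _, rfl⟩ := List.mem_map.1 he
  exact pow_mem' hd i

theorem run_sub {z : D} (hz : z ∈ S.B) {a b e : List D} (hc : S.hw z = a ++ b ++ e) :
    ∃ d ∈ S.B, b = run S d b.length := by
  refine ⟨(S.nx ^ a.length) z, pow_mem' hz _, ?_⟩
  refine List.ext_getElem ?_ ?_
  · unfold run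
    rw [List.length_map, List.length_range]
  · intro i h1 h2
    unfold run
    rw [List.getElem_map, List.getElem_range, ← Equiv.Perm.mul_apply, ← pow_add]
    have h3 : a.length + i < (S.hw z).length := by
      rw [hc, List.length_append, List.length_append]
      omega
    have h4 : (S.hw z)[a.length + i] = (S.nx ^ (a.length + i)) z := by
      simp only [hw, List.getElem_map, List.getElem_range]
    rw [Nat.add_comm i a.length, ← h4]
    simp only [hc]
    rw [List.getElem_append_left (by rw [List.length_append]; omega),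
      List.getElem_append_right (by omega)]
    simp

theorem run_close (h : S.Le T) {d : D} (hd : d ∈ S.B) {m : ℕ} (hc : T.Closed (run S d m)) :
    m = 0 ∨ T.tl ((S.nx ^ m) d) = T.tl d := by
  rcases m with _ | m
  · exact Or.inl rfl
  · right
    obtain ⟨v, hv⟩ := hc
    have h1 : run S d (m + 1) = d :: (List.range m).map fun i => (S.nx ^ (i + 1)) d := by
      unfold run
      rw [List.range_succ_eq_map, List.map_cons, List.map_map]
      rfl
    have h2 : T.tl d = v := by
      rw [h1] at hv
      exact hv.1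
    rw [← h2] at hv
    exact T.walk_end (run_walk h hd (m + 1)) hv

end SYS.TP
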