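import Pool.Agent.SYS.TP.Defs
import Pool.Agent.GNH.Htp

/-!
# SYSS-TOPS-Simp: a simple cycle from a closed walk all of whose closed subwalks are null-homologous

Strong induction on the length: a closed subwalk is cut out.
-/

namespace SYS.TP

open Classical SST GNH Part

variable {D : Type}

private theorem dup_split {T : Tri D} {c : List D} (h : ¬ (c.map T.tl).Nodup) :
    ∃ a d b' d' e', c = a ++ (d :: b') ++ (d' :: e') ∧ T.tl d = T.tl d' := by
  induction c with
  | nil => exact absurd List.nodup_nil h
  | cons x c ih =>
    by_cases hx : T.tl x ∈ c.map T.tl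
    · obtain ⟨y, hy, hxy⟩ := List.mem_map.1 hx
      obtain ⟨s, t, hst⟩ := List.append_of_mem hy
      exact ⟨[], x, s, y, t, by rw [hst]; rfl, hxy.symm⟩
    · have h1 : ¬ (c.map T.tl).Nodup := by
        intro hc
        apply h
        rw [List.map_cons, List.nodup_cons]
        exact ⟨hx, hc⟩
      obtain ⟨a, d, b', d', e', h2, h3⟩ := ih h1
      exact ⟨x :: a, d, b', d', e', by rw [h2]; rfl, h3⟩

private theorem nh_sub {T : Tri D} {B b c : List D} (hB : T.NullHom B) (hb : T.NullHom b)
    (h : ∀ d, T.chain c d = T.chain B d - T.chain b d) : T.NullHom c := by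
  obtain ⟨k1, a1, b1⟩ := hB
  obtain ⟨k2, a2, b2⟩ := hb
  refine ⟨fun d => k1 d - k2 d, fun d => ?_, fun d => ?_⟩
  · show k1 (T.f d) - k2 (T.f d) = k1 d - k2 d
    rw [a1, a2]
  · show T.chain c d = k1 d - k2 d - (k1 (T.a d) - k2 (T.a d))
    rw [h, b1, b2]
    ring

private theorem simple_aux {T : Tri D} (n : ℕ) : ∀ c : List D, c.length ≤ n → T.Closed c → ¬ T.NullHtp c →
    (∀ a b e : List D, c = a ++ b ++ e → T.Closed b → T.NullHom b) →
    ∃ c' : List D, c' ≠ [] ∧ T.Closed c' ∧ T.Simple c' ∧ T.NullHom c' ∧ ¬ T.NullHtp c' ∧ c'.length ≤ c.length := by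
  induction n with
  | zero =>
    intro c hl hc hH _
    exfalso
    have h1 : c = [] := List.length_eq_zero_iff.1 (Nat.le_zero.1 hl)
    rw [h1] at hH
    exact hH (Relation.EqvGen.refl _)
  | succ n ih =>
    intro c hl hc hH hsub
    have hne : c ≠ [] := by
      intro h1
      rw [h1] at hH
      exact hH (Relation.EqvGen.refl _)
    by_cases hs : T.Simple c
    · refine ⟨c, hne, hc, hs, ?_, hH, le_refl _⟩
      exact hsub [] c [] (by simp) hc
    · obtain ⟨a, d, b', d', e', hce, hdd⟩ := dup_split hs
      obtain ⟨v, hv⟩ := id hc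
      rw [hce] at hv
      obtain ⟨w2, h1, h2⟩ := T.walk_split hv
      obtain ⟨w1, h3, h4⟩ := T.walk_split h1
      have e2 : T.tl d' = w2 := h2.1
      have e1 : T.tl d = w1 := h4.1
      have e3 : w1 = w2 := by rw [← e1, ← e2, hdd]
      subst e3
      have hbN : T.NullHom (d :: b') := hsub a (d :: b') (d' :: e') hce ⟨w1, h4⟩
      have hpW : T.IsWalk v (a ++ (d' :: e')) v := T.walk_append h3 h2
      have hlen : c.length = a.length + (b'.length + 1) + (e'.length + 1) := by
        rw [hce]
        simp only [List.length_append, List.length_cons]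
      by_cases hb : T.NullHtp (d :: b')
      · have hp : ¬ T.NullHtp (a ++ (d' :: e')) := by
          intro hp
          apply hH
          rw [hce]
          have g1 := Hp.congr h3 h2 (hp_of_nullHtp h4 hb)
          have g2 := hp_of_nullHtp hpW hp
          rw [List.append_nil] at g1
          exact nullHtp_of_hp (v := v) (Relation.EqvGen.trans _ _ _ g1 g2)
        have hlp : (a ++ (d' :: e')).length = a.length + (e'.length + 1) := by
          rw [List.length_append, List.length_cons]
        have hq : ∀ a1 b1 f1 : List D, a ++ (d' :: e') = a1 ++ b1 ++ f1 → T.Closed b1 → T.NullHom b1 := by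
          intro a1 b1 f1 hpe hcl
          rcases List.append_eq_append_iff.1 hpe with ⟨s, h5, h6⟩ | ⟨s, h5, h6⟩
          · rcases (List.append_eq_append_iff.1 h5).symm with ⟨t, h7, h8⟩ | ⟨t, h7, h8⟩
            · refine hsub (a ++ (d :: b') ++ t) b1 f1 ?_ hcl
              rw [hce, h6, h8]
              simp only [List.append_assoc]
            · by_cases hb1 : b1 = []
              · rw [hb1]
                exact T.nullHom_nil
              · rw [h7] at h3
                obtain ⟨x0, h9, h10⟩ := T.walk_split h3
                rw [h6] at h2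
                obtain ⟨y0, h11, h12⟩ := T.walk_split h2
                obtain ⟨u, hu⟩ := hcl
                have hxy : T.IsWalk x0 b1 y0 := by
                  rw [h8]
                  exact T.walk_append h10 h11
                have g1 : x0 = u := T.walk_start hb1 hxy hu
                subst g1
                have g2 : y0 = x0 := T.walk_end hxy hu
                subst g2
                have g3 : T.IsWalk y0 (t ++ (d :: b') ++ s) y0 := T.walk_append (T.walk_append h10 h4) h11
                have g4 : T.NullHom (t ++ (d :: b') ++ s) := by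
                  refine hsub a1 (t ++ (d :: b') ++ s) f1 ?_ ⟨y0, g3⟩
                  rw [hce, h7, h6]
                  simp only [List.append_assoc]
                refine nh_sub g4 hbN ?_
                intro z
                rw [h8, T.chain_append, T.chain_append, T.chain_append]
                ring
          · refine hsub a1 b1 (s ++ (d :: b') ++ (d' :: e')) ?_ hcl
            rw [hce, h5]
            simp only [List.append_assoc]
        obtain ⟨c', g1, g2, g3, g4, g5, g6⟩ := ih (a ++ (d' :: e')) (by omega) ⟨v, hpW⟩ hp hq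
        exact ⟨c', g1, g2, g3, g4, g5, by omega⟩
      · have hlb : (d :: b').length = b'.length + 1 := List.length_cons
        have hq : ∀ a1 b1 f1 : List D, d :: b' = a1 ++ b1 ++ f1 → T.Closed b1 → T.NullHom b1 := by
          intro a1 b1 f1 hbe hcl
          refine hsub (a ++ a1) b1 (f1 ++ (d' :: e')) ?_ hcl
          rw [hce, hbe]
          simp only [List.append_assoc]
        obtain ⟨c', g1, g2, g3, g4, g5, g6⟩ := ih (d :: b') (by omega) ⟨w1, h4⟩ hb hq
        exact ⟨c', g1, g2, g3, g4, g5, by omega⟩

theorem simple_of {T : Tri D} {c : List D} (hc : T.Closed c) (hN : T.NullHom c) (hH : ¬ T.NullHtp c)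
    (hsub : ∀ a b e : List D, c = a ++ b ++ e → T.Closed b → T.NullHom b) :
    ∃ c' : List D, c' ≠ [] ∧ T.Closed c' ∧ T.Simple c' ∧ T.NullHom c' ∧ ¬ T.NullHtp c' ∧ c'.length ≤ c.length := by
  have _ := hN
  exact simple_aux c.length c (le_refl _) hc hH hsub

end SYS.TP
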