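import Pool.Agent.SYS.TP.Defs
import Pool.Agent.SYS.CO.Flw
import Pool.Agent.SYS.UT.Ring

/-!
# SYSS-TOPS-Str: a strip between two holes of a connected region gives a handle in the region and the strip
-/

namespace SYS.TP

open Classical SST GNH Part

variable {D : Type}

private theorem st_f2_ne (T : Tri D) (d : D) : T.f (T.f d) ≠ d := by
  intro h
  have h1 := congrArg T.f h
  rw [T.fff] at h1
  exact T.fne d h1.symm

private theorem st_f_iff (T : Tri D) (c d : D) : T.f c = d ↔ c = T.f (T.f d) := by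
  constructor
  · rintro rfl
    rw [T.fff]
  · rintro rfl
    rw [T.fff]

private theorem st_ff_iff (T : Tri D) (c d : D) : T.f (T.f c) = d ↔ c = T.f d := by
  constructor
  · rintro rfl
    rw [T.fff]
  · rintro rfl
    rw [T.fff]

private theorem st_fci_sum (T : Tri D) (d c : D) : fci T d c =
    (if c = d then 1 else 0) + (if c = T.f d then 1 else 0) + (if c = T.f (T.f d) then 1 else 0) := by
  unfold fci
  by_cases h1 : c = d
  · subst h1
    rw [if_pos (Or.inl rfl), if_pos rfl, if_neg (T.fne c).symm, if_neg (st_f2_ne T c).symm]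
    ring
  · by_cases h2 : c = T.f d
    · subst h2
      rw [if_pos (Or.inr (Or.inl rfl)), if_neg h1, if_pos rfl, if_neg (T.fne _).symm]
      ring
    · by_cases h3 : c = T.f (T.f d)
      · rw [if_pos (Or.inr (Or.inr h3)), if_neg h1, if_neg h2, if_pos h3]
        ring
      · rw [if_neg (by rintro (h | h | h) <;> contradiction), if_neg h1, if_neg h2, if_neg h3]
        ring

/-- the flow through one edge -/
private noncomputable def st_ev (x y : D) (c : D) : ℝ :=
  (if c = x then 1 else 0) - (if c = y then 1 else 0)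

private theorem st_dvg_ev (T : Tri D) (x y c : D) :
    dvg T (st_ev x y) c = fci T x c - fci T y c := by
  have h : ∀ z : D, (if c = z then (1 : ℝ) else 0) + (if T.f c = z then 1 else 0) +
      (if T.f (T.f c) = z then 1 else 0) = fci T z c := by
    intro z
    rw [st_fci_sum]
    simp only [st_f_iff T c z, st_ff_iff T c z]
    ring
  rw [← h x, ← h y]
  unfold dvg st_ev
  ring

private theorem st_ev_asy (T : Tri D) (d : D) : ASy T (st_ev d (T.a d)) := by
  intro c
  have e1 : T.a c = d ↔ c = T.a d := by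
    constructor
    · rintro rfl
      rw [T.aa]
    · rintro rfl
      rw [T.aa]
  have e2 : T.a c = T.a d ↔ c = d := T.a.injective.eq_iff
  unfold st_ev
  simp only [e1, e2]
  ring

private theorem st_ev_asy2 (T : Tri D) (d : D) : ASy T (st_ev (T.a d) d) := by
  intro c
  have e1 : T.a c = d ↔ c = T.a d := by
    constructor
    · rintro rfl
      rw [T.aa]
    · rintro rfl
      rw [T.aa]
  have e2 : T.a c = T.a d ↔ c = d := T.a.injective.eq_iff
  unfold st_ev
  simp only [e1, e2]
  ring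

private theorem st_per_one {w : D → ℝ} {d1 : D} {l : List D} (hn : l.Nodup) (h1 : d1 ∈ l)
    (hw : ∀ e ∈ l, w e = if e = d1 then 1 else 0) : per w l = 1 := by
  induction l with
  | nil => exact absurd h1 List.not_mem_nil
  | cons a l ih =>
    rw [List.nodup_cons] at hn
    rw [per_cons, hw a List.mem_cons_self]
    by_cases h2 : a = d1
    · rw [if_pos h2]
      have h3 : per w l = 0 := by
        unfold GNH.per
        apply List.sum_eq_zero
        intro r hr
        obtain ⟨e, he, rfl⟩ := List.mem_map.1 hr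
        rw [hw e (List.mem_cons_of_mem _ he), if_neg]
        rintro rfl
        rw [h2] at hn
        exact hn.1 he
      rw [h3, add_zero]
    · rw [if_neg h2, zero_add]
      refine ih hn.2 ?_ fun e he => hw e (List.mem_cons_of_mem _ he)
      rcases List.mem_cons.1 h1 with h3 | h3
      · exact absurd h3.symm h2
      · exact h3

theorem strip_area [Fintype D] {T : Tri D} {S : Part D} (h : S.Le T) (hS : S.Con) {z z' : D} (hz : z ∈ S.B)
    (hz' : z' ∈ S.B) (hne : ¬ S.s.SameCycle z z') {Y : Set D} {m v : ℝ} (hY : US.Strip S T z z' Y m v) :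
    ∃ y1 y2 : D → ℝ, y1 ∈ CO.Z T (CO.ins T (S.R ∪ Y)) ∧ y2 ∈ CO.Z T (CO.ins T (S.R ∪ Y)) ∧ T.Area y1 y2 ≠ 0 := by
  obtain ⟨q, y1, -, hc1, -, hs1, -, har⟩ := exists_ring h hz
  obtain ⟨d1, hd1B, hd1, hd1Y⟩ := hY.t1
  obtain ⟨d2, hd2B, hd2, hd2Y⟩ := hY.t2
  obtain ⟨wY, a1, s1, v1⟩ := CO.lk_flow (CO.ins_a T Y) ((CO.dc_lk hY.fs).1 hY.dc _ hd1Y _ hd2Y)
  obtain ⟨w0, a0, s0, v0⟩ := CO.lk_flow (CO.rev_a h) ((CO.con_lk h).1 hS d2 hd2B.1 d1 hd1B.1)
  have a2 := st_ev_asy T d1
  have a3 := st_ev_asy2 T d2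
  have hrev : CO.rev S ⊆ CO.ins T (S.R ∪ Y) :=
    (CO.rev_sub_ins h).trans (CO.ins_mono T Set.subset_union_left)
  have hins : CO.ins T Y ⊆ CO.ins T (S.R ∪ Y) := CO.ins_mono T Set.subset_union_right
  have hd1i : d1 ∈ CO.ins T (S.R ∪ Y) := ⟨Or.inl hd1B.1, Or.inr hd1Y⟩
  have hd2i : d2 ∈ CO.ins T (S.R ∪ Y) := ⟨Or.inl hd2B.1, Or.inr hd2Y⟩
  refine ⟨y1, fun c => (fun c => (fun c => wY c + w0 c) c + st_ev d1 (T.a d1) c) c + st_ev (T.a d2) d2 c,
    ⟨hc1, ?_⟩, ⟨?_, ?_⟩, ?_⟩
  · intro d hd
    by_contra hne0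
    obtain ⟨h1, h2⟩ := hs1 d hne0
    exact hd (hrev (CO.mem_rev.2 ⟨h1, h2⟩))
  · rw [isCoc_iff]
    refine ⟨((a1.add a0).add a2).add a3, ?_⟩
    intro c
    rw [dvg_add, dvg_add, dvg_add, v1, v0, st_dvg_ev, st_dvg_ev]
    ring
  · intro c hc
    have e1 : wY c = 0 := s1 c fun h1 => hc (hins h1)
    have e0 : w0 c = 0 := s0 c fun h1 => hc (hrev h1)
    have n1 : c ≠ d1 := by
      rintro rfl
      exact hc hd1i
    have n2 : c ≠ T.a d1 := by
      rintro rfl
      exact hc ((CO.ins_a T _ d1).2 hd1i)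
    have n3 : c ≠ d2 := by
      rintro rfl
      exact hc hd2i
    have n4 : c ≠ T.a d2 := by
      rintro rfl
      exact hc ((CO.ins_a T _ d2).2 hd2i)
    show wY c + w0 c + st_ev d1 (T.a d1) c + st_ev (T.a d2) d2 c = 0
    unfold st_ev
    rw [e1, e0, if_neg n1, if_neg n2, if_neg n3, if_neg n4]
    ring
  · rw [har]
    · have hper : per (fun c => (fun c => (fun c => wY c + w0 c) c + st_ev d1 (T.a d1) c) c +
          st_ev (T.a d2) d2 c) (S.hw z) = 1 := by
        refine st_per_one (S.hw_nodup hz) ((mem_hw S hz).2 ⟨hd1B, hd1⟩) ?_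
        intro e he
        obtain ⟨heB, hez⟩ := (mem_hw S hz).1 he
        have e1 : wY e = 0 := s1 e fun h1 => hY.hid e h1.1 heB.1
        have e0 : w0 e = 0 := s0 e fun h1 => (CO.mem_rev.1 h1).2 heB
        have n2 : e ≠ T.a d1 := by
          rintro rfl
          exact hY.hid _ hd1Y heB.1
        have n3 : e ≠ d2 := by
          rintro rfl
          exact hne (hez.trans hd2.symm)
        have n4 : e ≠ T.a d2 := by
          rintro rfl
          exact hY.hid _ hd2Y heB.1
        show wY e + w0 e + st_ev d1 (T.a d1) e + st_ev (T.a d2) d2 e = _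
        unfold st_ev
        rw [e1, e0, if_neg n2, if_neg n3, if_neg n4]
        ring
      rw [hper]
      norm_num
    · rw [isCoc_iff]
      refine ⟨((a1.add a0).add a2).add a3, ?_⟩
      intro c
      rw [dvg_add, dvg_add, dvg_add, v1, v0, st_dvg_ev, st_dvg_ev]
      ring

end SYS.TP
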