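import Pool.Agent.SYS.TP.Defs

/-!
# SYSS-TOPS-StrA: a region and a strip form a connected set of faces

A closed set `Z ⊆ X.R ∪ Y` contains with a dart all darts of its component of `X` (`core_cn`) and with a dart of
`Y` the whole strip `Y`; the strip touches all components.
-/

namespace SYS.TP

open Classical SST GNH Part

variable {D : Type}

private theorem core_cn {X : Part D} {T : Tri D} (h : X.Le T) {Y Z : Set D} (hf : ∀ d ∈ Z, T.f d ∈ Z)
    (ha : ∀ d ∈ Z, T.a d ∈ X.R ∪ Y → T.a d ∈ Z) {d e : D} (hde : X.Cn d e) :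
    d ∈ Z ↔ e ∈ Z := by
  induction hde with
  | rel x y h1 =>
    rcases h1 with h1 | h1
    · subst h1
      by_cases h2 : X.a x = x
      · rw [h2]
      · have h3 : x ∈ X.R := fun h3 => h2 (X.af x h3)
        have h4 : X.a x ∈ X.R := (mem_R_a X x).2 h3
        have h5 : T.a x = X.a x := h.2 x h2
        constructor
        · intro hx
          rw [← h5]
          refine ha x hx ?_
          rw [h5]
          exact Or.inl h4
        · intro hx
          have h6 : T.a (X.a x) = x := by rw [← h5, T.aa]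
          have h7 := ha _ hx
          rw [h6] at h7
          exact h7 (Or.inl h3)
    · subst h1
      by_cases h2 : X.f x = x
      · rw [h2]
      · have h5 : T.f x = X.f x := h.1 x h2
        rw [← h5]
        refine ⟨hf x, fun hx => ?_⟩
        have h6 := hf _ (hf _ hx)
        rw [T.fff] at h6
        exact h6
  | refl x => exact Iff.rfl
  | symm x y _ ih => exact ih.symm
  | trans x y z _ _ ih1 ih2 => exact ih1.trans ih2

private theorem core_dc {X : Part D} {T : Tri D} (h : X.Le T) {Y : Set D} (hfs : XP.Fs T Y) (hdc : XP.DC T Y)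
    {d1 d2 : D} (hd1 : d1 ∈ X.R) (hd2 : d2 ∈ X.R) (ha1 : T.a d1 ∈ Y) (ha2 : T.a d2 ∈ Y)
    (hgen : ∀ d ∈ X.R, X.Cn d1 d ∨ X.Cn d2 d) : XP.DC T (X.R ∪ Y) := by
  intro Z hZ hne hf ha
  have hY1 : ∀ d ∈ Z, d ∈ Y → Y ⊆ Z := by
    intro d hd hdY
    have h1 := hdc (Z ∩ Y) Set.inter_subset_right ⟨d, hd, hdY⟩
      (fun e he => ⟨hf e he.1, (hfs e).2 he.2⟩) (fun e he he2 => ⟨ha e he.1 (Or.inr he2), he2⟩)
    rw [← h1]
    exact Set.inter_subset_left
  have hback : ∀ d, d ∈ X.R → T.a d ∈ Z → d ∈ Z := by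
    intro d hd hz
    have h1 := ha _ hz
    rw [T.aa] at h1
    exact h1 (Or.inl hd)
  have hYZ : Y ⊆ Z := by
    obtain ⟨e, he⟩ := hne
    rcases hZ he with h1 | h1
    · rcases hgen e h1 with h2 | h2
      · exact hY1 _ (ha d1 ((core_cn h hf ha h2).2 he) (Or.inr ha1)) ha1
      · exact hY1 _ (ha d2 ((core_cn h hf ha h2).2 he) (Or.inr ha2)) ha2
    · exact hY1 e he h1
  refine Set.Subset.antisymm hZ ?_
  rintro e (he | he)
  · rcases hgen e he with h2 | h2
    · exact (core_cn h hf ha h2).1 (hback d1 hd1 (hYZ ha1))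
    · exact (core_cn h hf ha h2).1 (hback d2 hd2 (hYZ ha2))
  · exact hYZ he

theorem strip_dc [Finite D] {T : Tri D} {S : Part D} (h : S.Le T) (hS : S.Con) {z z' : D} {Y : Set D} {m v : ℝ}
    (hY : US.Strip S T z z' Y m v) : XP.DC T (S.R ∪ Y) := by
  obtain ⟨d, hd, -, hdY⟩ := hY.t1
  exact core_dc h hY.fs hY.dc hd.1 hd.1 hdY hdY fun e he => Or.inl (hS d hd.1 e he)

theorem strip_dc2 [Finite D] {T : Tri D} {U : Part D} (h : U.Le T) {w w' : D} (hw : w ∈ U.B) (hw' : w' ∈ U.B)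
    (hgen : ∀ d ∈ U.R, U.Cn w d ∨ U.Cn w' d) {Y : Set D} {m v : ℝ} (hY : US.Strip U T w w' Y m v) :
    XP.DC T (U.R ∪ Y) := by
  obtain ⟨d1, hd1, hs1, hdY1⟩ := hY.t1
  obtain ⟨d2, hd2, hs2, hdY2⟩ := hY.t2
  exact core_dc h hY.fs hY.dc hd1.1 hd2.1 hdY1 hdY2 fun e he =>
    (hgen e he).imp (fun h1 => cn_trans (cn_symm (cn_of_same hs1)) h1)
      (fun h1 => cn_trans (cn_symm (cn_of_same hs2)) h1)

theorem strip_bdy [Finite D] {T : Tri D} {S : Part D} (h : S.Le T) {z z' : D} {Y : Set D} {m v : ℝ}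
    (hY : US.Strip S T z z' Y m v) : ((XP.bdy T (S.R ∪ Y)).ncard : ℝ) ≤ m + S.B.ncard := by
  have h1 : XP.bdy T (S.R ∪ Y) ⊆ {d | d ∈ Y ∧ T.a d ∉ Y ∧ T.a d ∉ S.R} ∪ S.B := by
    rintro d ⟨hd | hd, hd2⟩
    · right
      refine ⟨hd, ?_⟩
      by_contra h3
      apply hd2
      left
      rw [h.2 d h3]
      exact (mem_R_a S d).2 hd
    · left
      exact ⟨hd, fun h3 => hd2 (Or.inr h3), fun h3 => hd2 (Or.inl h3)⟩
  have h2 := (Set.ncard_le_ncard h1 (Set.toFinite _)).trans (Set.ncard_union_le _ _)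
  have h3 : ((XP.bdy T (S.R ∪ Y)).ncard : ℝ) ≤
      ((({d | d ∈ Y ∧ T.a d ∉ Y ∧ T.a d ∉ S.R} : Set D).ncard : ℕ) : ℝ) + ((S.B.ncard : ℕ) : ℝ) := by
    exact_mod_cast h2
  exact h3.trans (add_le_add hY.per le_rfl)

end SYS.TP
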