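import Pool.Agent.SYS.TP.Defs

/-!
# SYSS-TOPS-VxTr: replacement of a region: the vertices of the hidden part correspond

PLAN.  `q` = the `VInv S` function with values in `T'.V` and `q e = T'.tl (χ e)` for `e ∈ S.B` (`exists_vinv`, `G := T'.V`).  `F d := q d` for `d ∈ S.R`, `F d := T'.tl (χ d)` for `d ∉ S.R`.  `F (T.s d) = F d` for all `d`:
* `d ∈ S.R`, `d ∉ S.B`: `T.s d = S.s d` (`le_s`), `VInv`.
* otherwise `d ∈ S.X` and `F d = T'.tl (χ d)`.  If `T.a d ∉ S.R`: `T.s d = T.f (T.a d) ∉ S.R`, `F (T.s d) = T'.tl (χ (T.f (T.a d))) = T'.tl (T'.f (T'.a (χ d))) = T'.tl (T'.s (χ d)) = T'.tl (χ d)`.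
  If `T.a d ∈ S.R`: `b := T.a d ∈ S.B` (`X_a`), `T.s d = T.f b = S.f b ∈ S.R`, `F (T.s d) = q (S.f b) = q (S.nx b)` (`VInv.nx`) `= T'.tl (χ (S.nx b)) = T'.tl (U.nx (χ b)) = T'.hd (χ b)` (`χ b ∈ U.B`; `T.hd d = T.tl (S.nx d)`: private lemma `hd_nx` in `Lib/WordA.lean`, copy it) `= T'.tl (T'.a (T'.a (χ d))) = T'.tl (χ d)`.
So `F` is constant on the cycles of `T.s` (`tl_eq_iff`).
-/

namespace SYS.TP

open Classical SST GNH Part

variable {D E : Type} [Finite D] [Finite E] {S : Part D} {U : Part E} {T : Tri D} {T' : Tri E} {χ : D → E}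

private theorem hd_nx {D : Type} [Finite D] {S : Part D} {T : Tri D} (h : S.Le T) {d : D} (hd : d ∈ S.B) :
    T.hd d = T.tl (S.nx d) := by
  obtain ⟨j, h1, h2, h3⟩ := ret_spec S.s hd
  have h0 : S.s d = T.f d := by
    rw [s_apply, hd.2]
    exact (h.1 d hd.1).symm
  have key : ∀ i ≤ j, (S.s ^ (i + 1)) d ∈ S.R ∧ T.tl ((S.s ^ (i + 1)) d) = T.hd d := by
    intro i
    induction i with
    | zero =>
      intro _
      rw [zero_add, pow_one]
      refine ⟨(mem_R_s S d).2 hd.1, ?_⟩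
      rw [h0, SST.Tri.tl_f]
    | succ i ih =>
      intro hi
      obtain ⟨h4, h5⟩ := ih (by omega)
      have h6 : (S.s ^ (i + 1 + 1)) d = S.s ((S.s ^ (i + 1)) d) := by
        rw [pow_succ', Equiv.Perm.mul_apply]
      rw [h6]
      refine ⟨(mem_R_s S _).2 h4, ?_⟩
      rw [← le_s h h4 (h3 i (by omega)), SST.Tri.tl_s, h5]
  have h4 := (key j le_rfl).2
  rw [← h1] at h4
  exact h4.symm

theorem vtx_tr (h : Rep S U T T' χ) {d e : D} (hd : d ∈ S.X) (he : e ∈ S.X) (hde : T.tl d = T.tl e) :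
    T'.tl (χ d) = T'.tl (χ e) := by
  obtain ⟨q, hq, hqB⟩ := exists_vinv S (fun d => T'.tl (χ d))
  obtain ⟨F, hF⟩ : ∃ F : D → T'.V, F = fun d => if d ∈ S.R then q d else T'.tl (χ d) := ⟨_, rfl⟩
  have hR : ∀ d, d ∈ S.R → F d = q d := fun d hd => by rw [hF]; exact if_pos hd
  have hN : ∀ d, d ∉ S.R → F d = T'.tl (χ d) := fun d hd => by rw [hF]; exact if_neg hd
  have hX : ∀ d ∈ S.X, F d = T'.tl (χ d) := by
    intro d hd
    rcases hd with hd | hd
    · exact hN d hd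
    · rw [hR d (S.B_sub_R hd), hqB d hd]
  have key : ∀ d, F (T.s d) = F d := by
    intro d
    by_cases hdX : d ∈ S.X
    · rw [hX d hdX]
      by_cases ha : T.a d ∈ S.R
      · have hb : T.a d ∈ S.B := by
          rcases (X_a h.le d).2 hdX with h1 | h1
          · exact absurd ha h1
          · exact h1
        have h1 : T.s d = S.f (T.a d) := by
          rw [SST.Tri.s_apply]
          exact h.le.1 _ hb.1
        have h2 : χ (T.a d) ∈ U.B := by
          rw [← h.bd]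
          exact Set.mem_image_of_mem _ hb
        have h3 : S.nx (T.a d) ∈ S.B := (ret_spec S.s hb).choose_spec.2.1
        rw [h1, hR _ ((mem_R_f S _).2 hb.1), hq.nx hb, hqB _ h3]
        show T'.tl (χ (S.nx (T.a d))) = _
        rw [← h.nx _ hb, ← hd_nx h.le' h2, ← h.a d hdX]
        exact SST.Tri.hd_a T' _
      · have h1 : T.s d ∉ S.R := by
          rw [SST.Tri.s_apply]
          exact fun h2 => ha ((le_f_mem h.le _).1 h2)
        rw [hN _ h1, SST.Tri.s_apply, ← h.f _ ha, ← h.a d hdX, ← SST.Tri.s_apply, SST.Tri.tl_s]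
    · have hdR : d ∈ S.R := by
        by_contra h1
        exact hdX (Or.inl h1)
      have hdB : d ∉ S.B := fun h1 => hdX (Or.inr h1)
      rw [le_s h.le hdR hdB, hR _ ((mem_R_s S d).2 hdR), hR _ hdR]
      exact hq d hdR hdB
  have key2 : ∀ (i : ℕ) d, F ((T.s ^ i) d) = F d := by
    intro i
    induction i with
    | zero => intro d; rfl
    | succ i ih => intro d; rw [pow_succ', Equiv.Perm.mul_apply, key, ih]
  rw [SST.Tri.tl_eq_iff] at hde
  obtain ⟨i, hi⟩ := hde.exists_nat_pow_eq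
  rw [← hX d hd, ← hX e he, ← hi, key2]

end SYS.TP
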