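import Pool.Agent.SYS.TP.Turn
import Pool.Agent.SYS.TP.NulH
import Pool.Agent.SYS.TP.Orth
import Pool.Agent.SYS.TP.VxTr
import Pool.Agent.SYS.TP.NxTr
import Pool.Agent.SYS.TP.NulTr
import Pool.Agent.SYS.TP.Han
import Pool.Agent.SYS.TP.One
import Pool.Agent.SYS.TP.Str
import Pool.Agent.SYS.TP.StrA
import Pool.Agent.SYS.TP.CocTr
import Pool.Agent.SYS.TP.Hei
import Pool.Agent.SYS.TP.Simp
import Pool.Agent.SYS.TP.Run
import Pool.Agent.SST.D.Rank

/-!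
# SYSS-TOPS-Fin: a seed and a flat strip give a simple separating cycle which is not contractible
-/

namespace SYS.TP

open Classical SST GNH Part

theorem fs_star {D : Type} (T : Tri D) (v : T.V) : XP.Fs T (star T v) := by
  intro d
  simp only [star, Set.mem_setOf_eq, T.fff]
  tauto

theorem fs_union {D : Type} {T : Tri D} {Y Z : Set D} (hY : XP.Fs T Y) (hZ : XP.Fs T Z) : XP.Fs T (Y ∪ Z) := by
  intro d
  rw [Set.mem_union, Set.mem_union, hY, hZ]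

theorem tops {D E : Type} [Fintype D] [Fintype E] [Nonempty E] {T : Tri D} {T' : Tri E} (hT : T.Conn) (hT' : T'.Conn)
    {n' g' : ℕ} (hE : Fintype.card E = 6 * n') (hg : T'.Genus n' g') (hg1 : 1 ≤ g') {S : Part D} {U : Part E} {χ : D → E}
    (hR : Rep S U T T' χ) (hS : S.Con) {z z' : D} (hz : z ∈ S.B) (hz' : z' ∈ S.B) (hne : ¬ S.s.SameCycle z z')
    {Y : Set D} {m v : ℝ} (hY : US.Strip S T z z' Y m v) (hdc : XP.DC T' (U.R ∪ χ '' Y))
    (hpr : U.R ∪ χ '' Y ≠ Set.univ)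
    (hfl : ∀ e ∈ XP.bdy T' (U.R ∪ χ '' Y), CO.rk T' (CO.ins T' (U.R ∪ χ '' Y ∪ star T' (T'.tl e))) = 0) :
    T.HasSSC (m + S.B.ncard) := by
  have hYS := hY.hid
  have h2 : XP.Fs T (S.R ∪ Y) := fs_un hR hY.fs
  have h1 : XP.Fs T' (U.R ∪ χ '' Y) := fs_im hR hY.fs hYS
  have hRne : S.R.Nonempty := ⟨z, S.B_sub_R hz⟩
  have hS2le := XP.cut_le T (S.R ∪ Y) h2
  have hS2R := XP.cut_R T (S.R ∪ Y) h2
  have hS2B := XP.cut_B T (S.R ∪ Y) h2
  have hdc2 : XP.DC T (S.R ∪ Y) := strip_dc hR.le hS hY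
  -- the flat side
  have hUne : (U.R ∪ χ '' Y).Nonempty := by
    refine ⟨χ z, Or.inl (U.B_sub_R ?_)⟩
    rw [← hR.bd]
    exact ⟨z, hz, rfl⟩
  have hbne : ∃ e, e ∈ XP.bdy T' (U.R ∪ χ '' Y) := by
    by_contra hcon
    push Not at hcon
    refine hpr (hT' _ hUne fun e he => ⟨?_, (h1 e).2 he⟩)
    by_contra h3
    exact hcon e ⟨he, h3⟩
  obtain ⟨e0, he0⟩ := hbne
  have hrk0 : CO.rk T' (CO.ins T' (U.R ∪ χ '' Y)) = 0 := by
    have h3 := CO.rk_mono (T := T') (CO.ins_mono T' (Set.subset_union_left (s := U.R ∪ χ '' Y) (t := star T' (T'.tl e0))))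
    rw [hfl e0 he0] at h3
    omega
  -- two cocycles of T' with non-zero area, both gradients
  obtain ⟨x1, x2, hx1, hx2, _, _, hxA⟩ := T'.rank_x hE hg ∅ (by intro d hd; exact absurd hd (Finset.notMem_empty d))
    (by rw [Finset.card_empty]; omega)
  have hgr : ∀ x : E → ℝ, T'.IsCoc x → ∃ q, Grad (XP.cut T' (U.R ∪ χ '' Y) h1) T' x q := by
    intro x hx
    refine grad_of_orth (XP.cut_le T' _ h1) (CO.con_cut h1 hdc) hx fun y hy => ?_
    rw [CO.rev_cut] at hy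
    exact area_bd (rk_zero hrk0 hy) hx
  obtain ⟨p1, hp1⟩ := hgr x1 hx1
  obtain ⟨p2, hp2⟩ := hgr x2 hx2
  obtain ⟨u1, r1, hu1, hux1, hur1⟩ := grad_tr hR hY.fs hYS h2 h1 hp1
  obtain ⟨u2, r2, hu2, hux2, hur2⟩ := grad_tr hR hY.fs hYS h2 h1 hp2
  have hA2 : T.Area u1 u2 ≠ 0 := by
    rw [area_tr hR (grad_cut hR.le h2 Set.subset_union_left hu1) (grad_cut hR.le h2 Set.subset_union_left hu2)
      (grad_cut hR.le' h1 Set.subset_union_left hp1) (grad_cut hR.le' h1 Set.subset_union_left hp2) hux1 hux2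
      (fun d hd => hur1 d (Or.inl hd))]
    exact hxA
  obtain ⟨c, hcB, w1, w2, q1, q2, hw1, hw2, hw0, hq0, hwA⟩ := han hT hS2le (by rw [hS2R]; exact hRne.mono Set.subset_union_left) hu1 hu2 hA2
  -- all closed runs are null-homologous
  have hnull : ∀ d ∈ XP.bdy T (S.R ∪ Y), ∀ k : ℕ, T.tl (((XP.cut T (S.R ∪ Y) h2).nx ^ k) d) = T.tl d →
      T.NullHom (run (XP.cut T (S.R ∪ Y) h2) d k) := by
    intro d hd k htl
    obtain ⟨e1, e2⟩ := run_tr hR hY.fs hYS h2 h1 hd k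
    have hdB := bdy_tr hR hY.fs hYS hd
    have hX : ∀ e, (e ∈ S.B ∨ e ∈ Y) → e ∈ S.X := fun e he => he.elim (fun h => Or.inr h) fun h => Or.inl (hYS e h)
    have hkB : (((XP.cut T (S.R ∪ Y) h2).nx ^ k) d) ∈ XP.bdy T (S.R ∪ Y) := by
      rw [← hS2B] at hd ⊢
      clear htl e1 e2
      induction k with
      | zero => exact hd
      | succ k ih =>
        rw [pow_succ', Equiv.Perm.mul_apply]
        exact (Part.nx_mem _).2 ih
    have htl' : T'.tl (((XP.cut T' (U.R ∪ χ '' Y) h1).nx ^ k) (χ d)) = T'.tl (χ d) := by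
      rw [e1]
      exact vtx_tr hR (hX _ (bdy_tr hR hY.fs hYS hkB).1) (hX _ hdB.1) htl
    obtain ⟨h, hh, hsup⟩ := run_turn h1 hdB.2 htl'
    have hco := coc_of_turn hh (fs_union h1 (fs_star T' _)) hsup
    have hN := nul_of_bd hT' hh (rk_zero (hfl _ hdB.2) hco)
    rw [e2] at hN
    refine nul_tr hR hY.fs hYS hdc ?_ hN
    intro e he
    have hd' : d ∈ (XP.cut T (S.R ∪ Y) h2).B := by rw [hS2B]; exact hd
    rw [← hS2B]
    exact run_mem hd' he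
  have hcb : c ∈ XP.bdy T (S.R ∪ Y) := by rw [← hS2B]; exact hcB
  have hsub : ∀ a b e : List D, (XP.cut T (S.R ∪ Y) h2).hw c = a ++ b ++ e → T.Closed b → T.NullHom b := by
    intro a b e habe hb
    obtain ⟨d, hd, hbr⟩ := run_sub hcB habe
    have hd' : d ∈ XP.bdy T (S.R ∪ Y) := by rw [← hS2B]; exact hd
    rw [hbr] at hb ⊢
    rcases run_close hS2le hd hb with h0 | h0
    · rw [h0]
      exact ⟨fun _ => 0, fun _ => rfl, fun _ => rfl⟩
    · exact hnull d hd' _ h0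
  have hcl : T.Closed ((XP.cut T (S.R ∪ Y) h2).hw c) := ⟨_, Part.hw_walk hS2le hcB⟩
  have hN : T.NullHom ((XP.cut T (S.R ∪ Y) h2).hw c) := hsub [] _ [] (by simp) hcl
  have hu := one_hole h2 hdc2 hcb hN
  obtain ⟨y1, y2, hy1, hy2, hyA⟩ := strip_area hR.le hS hz hz' hne hY
  rw [← CO.rev_cut T _ h2] at hy1 hy2
  have hH := hei hT hS2le hcB hu hy1 hy2 hyA hw1 hw2 hw0 hq0 hwA
  obtain ⟨c', hc1, hc2, hc3, hc4, hc5, hc6⟩ := simple_of hcl hN hH hsub
  refine ⟨c', hc1, hc2, hc3, hc4, hc5, ?_⟩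
  have h3 : ((XP.cut T (S.R ∪ Y) h2).hw c).length ≤ (XP.bdy T (S.R ∪ Y)).ncard := by
    rw [Part.hw_length _ hcB]
    unfold Part.per
    refine Set.ncard_le_ncard (fun e he => ?_) (Set.toFinite _)
    rw [← hS2B]
    exact he.1
  have h4 := strip_bdy hR.le hY
  have h5 : (c'.length : ℝ) ≤ ((XP.bdy T (S.R ∪ Y)).ncard : ℝ) := by exact_mod_cast hc6.trans h3
  linarith

end SYS.TP
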