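import Pool.Agent.SYS.TP.Defs
import Pool.Agent.SYS.XP.Cut

/-!
# SYSS-TOPS-Turn: the corners on the left of a closed walk along the boundary of a face set

`Y` a set of faces, `S = cut T Y` its region, `e_i = nx^i d` consecutive boundary darts, `e_m` leaves the same vertex as `e_0 = d`.  There is an integral function
`h` on the darts (corners), supported in `Y` and the star of this vertex, with `h (T.s e) - h e = - chain(e_0, .., e_{m-1}) e`.

PLAN.
* One turn: if `(T.s ^ j) p = e'` then `g := ∑ i in range j, ind ((T.s ^ (i+1)) p)` satisfies `g (T.s x) - g x = ind p x - ind e' x` (telescoping, `T.s` is injective: `ind (T.s y) (T.s x) = ind y x`),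
  and `g x ≠ 0` only for `x = (T.s ^ (i+1)) p`, `i < j`.
* Along the boundary: `e' = S.nx e = (S.s ^ (j+1)) e` with `(S.s ^ (i+1)) e ∉ S.B` for `i < j` (`ret_spec S.s he`; see `hd_nx` in `Lib/WordA.lean`).  `S.s e = S.f e = T.f e = T.s (T.a e)`, and `(S.s ^ (i+1)) e = (T.s ^ (i+1)) (T.a e)` is in `S.R = Y` for `i ≤ j`
  (`le_s`, `mem_R_s`).  So the turn `p = T.a e`, `e' = S.nx e` has its support in `Y`.
* Induction on `m`: `h_m` with `h_m (T.s x) - h_m x = ∑ i in range m, (ind (T.a e_i) x - ind e_{i+1} x)`, supported in `Y`; this sum is `- chain (run) x + ind e_0 x - ind e_m x` (`chain` = sum over the list of `ind e x - ind e (T.a x)`, `ind_a`).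
* Closing: `T.tl e_m = T.tl d`: `(T.s ^ j) e_m = e_0` for some natural `j` (`tl_eq_iff`, finite), the turn `p = e_m`, `e' = e_0` has its support in the darts of the vertex `T.tl d`, in `star T (T.tl d)`.
-/

namespace SYS.TP

open Classical SST GNH Part

variable {D : Type}

private theorem turn [Finite D] (T : Tri D) {p e' : D} {j : ℕ} (he : (T.s ^ j) p = e') :
    ∃ g : D → ℤ, (∀ x, g (T.s x) - g x = SST.Tri.ind p x - SST.Tri.ind e' x) ∧
      ∀ x, g x ≠ 0 → ∃ i < j, x = (T.s ^ (i + 1)) p := by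
  refine ⟨fun x => ∑ i ∈ Finset.range j, SST.Tri.ind ((T.s ^ (i + 1)) p) x, fun x => ?_, fun x hx => ?_⟩
  · show (∑ i ∈ Finset.range j, SST.Tri.ind ((T.s ^ (i + 1)) p) (T.s x)) -
      (∑ i ∈ Finset.range j, SST.Tri.ind ((T.s ^ (i + 1)) p) x) = _
    have h1 : ∀ i, SST.Tri.ind ((T.s ^ (i + 1)) p) (T.s x) = SST.Tri.ind ((T.s ^ i) p) x := by
      intro i
      rw [pow_succ', Equiv.Perm.mul_apply]
      by_cases h2 : (T.s ^ i) p = x
      · rw [h2, SST.Tri.ind_self, SST.Tri.ind_self]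
      · rw [SST.Tri.ind_ne h2, SST.Tri.ind_ne fun h3 => h2 (T.s.injective h3)]
    rw [← Finset.sum_sub_distrib, Finset.sum_congr rfl fun i _ => by rw [h1 i],
      Finset.sum_range_sub' (fun i => SST.Tri.ind ((T.s ^ i) p) x), he]
    rfl
  · obtain ⟨i, hi, h1⟩ := Finset.exists_ne_zero_of_sum_ne_zero hx
    refine ⟨i, Finset.mem_range.1 hi, ?_⟩
    by_contra h2
    exact h1 (SST.Tri.ind_ne fun h3 => h2 h3.symm)

private theorem bd_turn [Finite D] {T : Tri D} {Y : Set D} (hY : XP.Fs T Y) {e : D} (he : e ∈ (XP.cut T Y hY).B) :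
    ∃ g : D → ℤ, (∀ x, g (T.s x) - g x = SST.Tri.ind (T.a e) x - SST.Tri.ind ((XP.cut T Y hY).nx e) x) ∧
      ∀ x, g x ≠ 0 → x ∈ Y := by
  obtain ⟨S, hS⟩ : ∃ S, S = XP.cut T Y hY := ⟨_, rfl⟩
  have hle : S.Le T := by rw [hS]; exact XP.cut_le T Y hY
  have hRY : S.R = Y := by rw [hS]; exact XP.cut_R T Y hY
  rw [← hS] at he ⊢
  obtain ⟨j, h1, h2, h3⟩ := ret_spec S.s he
  have h0 : S.s e = T.s (T.a e) := by
    rw [s_apply, he.2, SST.Tri.s_a]
    exact (hle.1 e he.1).symm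
  have key : ∀ i ≤ j, (S.s ^ (i + 1)) e ∈ S.R ∧ (T.s ^ (i + 1)) (T.a e) = (S.s ^ (i + 1)) e := by
    intro i
    induction i with
    | zero =>
      intro _
      rw [zero_add, pow_one, pow_one]
      exact ⟨(mem_R_s S e).2 he.1, h0.symm⟩
    | succ i ih =>
      intro hi
      obtain ⟨h4, h5⟩ := ih (by omega)
      have h6 : (S.s ^ (i + 1 + 1)) e = S.s ((S.s ^ (i + 1)) e) := by
        rw [pow_succ', Equiv.Perm.mul_apply]
      rw [h6]
      refine ⟨(mem_R_s S _).2 h4, ?_⟩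
      rw [← le_s hle h4 (h3 i (by omega)), pow_succ', Equiv.Perm.mul_apply, h5]
  obtain ⟨g, hg, hg'⟩ := turn T (p := T.a e) (e' := S.nx e) (j := j + 1) ((key j le_rfl).2.trans h1.symm)
  refine ⟨g, hg, fun x hx => ?_⟩
  obtain ⟨i, hi, rfl⟩ := hg' x hx
  rw [← hRY, (key i (by omega)).2]
  exact (key i (by omega)).1

private theorem run_aux [Finite D] {T : Tri D} {Y : Set D} (hY : XP.Fs T Y) {d : D} (hd : d ∈ (XP.cut T Y hY).B) (m : ℕ) :
    ((XP.cut T Y hY).nx ^ m) d ∈ (XP.cut T Y hY).B ∧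
    ∃ h : D → ℤ, (∀ x, h (T.s x) - h x = - T.chain (run (XP.cut T Y hY) d m) x + SST.Tri.ind d x -
        SST.Tri.ind (((XP.cut T Y hY).nx ^ m) d) x) ∧ ∀ x, h x ≠ 0 → x ∈ Y := by
  induction m with
  | zero =>
    refine ⟨hd, fun _ => 0, fun x => ?_, fun x hx => absurd rfl hx⟩
    show (0 : ℤ) - 0 = - T.chain [] x + SST.Tri.ind d x - SST.Tri.ind d x
    rw [SST.Tri.chain_nil]
    ring
  | succ m ih =>
    obtain ⟨hB, h, h1, h2⟩ := ih
    obtain ⟨g, g1, g2⟩ := bd_turn hY hB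
    have e1 : ((XP.cut T Y hY).nx ^ (m + 1)) d = (XP.cut T Y hY).nx (((XP.cut T Y hY).nx ^ m) d) := by
      rw [pow_succ', Equiv.Perm.mul_apply]
    have e2 : run (XP.cut T Y hY) d (m + 1) = run (XP.cut T Y hY) d m ++ [((XP.cut T Y hY).nx ^ m) d] := by
      unfold run
      rw [List.range_succ, List.map_append]
      rfl
    rw [e1]
    refine ⟨(ret_spec (XP.cut T Y hY).s hB).choose_spec.2.1, fun x => h x + g x, fun x => ?_, fun x hx => ?_⟩
    · rw [e2, SST.Tri.chain_append, SST.Tri.chain_cons, SST.Tri.chain_nil]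
      have h3 := h1 x
      have g3 := g1 x
      rw [SST.Tri.ind_a] at g3
      show h (T.s x) + g (T.s x) - (h x + g x) = _
      linear_combination h3 + g3
    · by_cases h3 : h x = 0
      · exact g2 x fun h4 => hx (by show h x + g x = 0; rw [h3, h4]; rfl)
      · exact h2 x h3

theorem run_turn [Finite D] {T : Tri D} {Y : Set D} (hY : XP.Fs T Y) {d : D} (hd : d ∈ XP.bdy T Y) {m : ℕ}
    (htl : T.tl (((XP.cut T Y hY).nx ^ m) d) = T.tl d) :
    ∃ h : D → ℤ, (∀ e, h (T.s e) - h e = - T.chain (run (XP.cut T Y hY) d m) e) ∧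
      ∀ e, h e ≠ 0 → e ∈ Y ∪ star T (T.tl d) := by
  have hB : d ∈ (XP.cut T Y hY).B := by
    rw [XP.cut_B]
    exact hd
  obtain ⟨-, h, h1, h2⟩ := run_aux hY hB m
  obtain ⟨j, hj⟩ := ((SST.Tri.tl_eq_iff T _ _).1 htl).exists_nat_pow_eq
  obtain ⟨g, g1, g2⟩ := turn T hj
  refine ⟨fun x => h x + g x, fun x => ?_, fun x hx => ?_⟩
  · have h3 := h1 x
    have g3 := g1 x
    show h (T.s x) + g (T.s x) - (h x + g x) = _
    linear_combination h3 + g3
  · by_cases h3 : h x = 0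
    · right
      left
      obtain ⟨i, -, rfl⟩ := g2 x fun h4 => hx (by show h x + g x = 0; rw [h3, h4]; rfl)
      have h5 : ∀ (k : ℕ) (y : D), T.tl ((T.s ^ k) y) = T.tl y := by
        intro k
        induction k with
        | zero => intro y; rfl
        | succ k ih => intro y; rw [pow_succ', Equiv.Perm.mul_apply, SST.Tri.tl_s, ih]
      rw [h5, htl]
    · exact Or.inl (h2 x h3)

end SYS.TP
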