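import Pool.Agent.SYS.TP.Defs
import Pool.Agent.SYS.XP.Cut

/-!
# SYSS-TOPS-VTr: replacement of a region: functions on the vertices of the rest

`Y` is a set of hidden faces of `S`; `S.R ∪ Y` in `T` corresponds to `U.R ∪ χ '' Y` in `T'`.
A function on the vertices of the second region gives one on the vertices of the first: `q' (χ d)` on the
hidden darts, and the extension of the values at the boundary darts on `S.R`.
-/

namespace SYS.TP

open Classical SST GNH Part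

variable {D E : Type} [Finite D] [Finite E] {S : Part D} {U : Part E} {T : Tri D} {T' : Tri E} {χ : D → E}

theorem fs_un (h : Rep S U T T' χ) {Y : Set D} (hY : XP.Fs T Y) : XP.Fs T (S.R ∪ Y) := by
  intro d
  constructor
  · rintro (h1 | h1)
    · exact Or.inl ((le_f_mem h.le d).1 h1)
    · exact Or.inr ((hY d).1 h1)
  · rintro (h1 | h1)
    · exact Or.inl ((le_f_mem h.le d).2 h1)
    · exact Or.inr ((hY d).2 h1)

theorem fs_im (h : Rep S U T T' χ) {Y : Set D} (hY : XP.Fs T Y) (hYS : ∀ d ∈ Y, d ∉ S.R) : XP.Fs T' (U.R ∪ χ '' Y) := by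
  have key : ∀ e ∈ U.R ∪ χ '' Y, T'.f e ∈ U.R ∪ χ '' Y := by
    rintro e (h1 | ⟨d, hd, rfl⟩)
    · exact Or.inl ((le_f_mem h.le' e).2 h1)
    · rw [h.f d (hYS d hd)]
      exact Or.inr ⟨_, (hY d).2 hd, rfl⟩
  intro e
  refine ⟨fun h1 => ?_, key e⟩
  have h2 := key _ (key _ h1)
  rwa [T'.fff] at h2

/-- An inner dart of `S` has its opposite dart in `S.R`. -/
private theorem a_in {F : Type} {V : Part F} {Q : Tri F} (h : V.Le Q) {d : F} (hd : d ∈ V.R) (hb : d ∉ V.B) :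
    Q.a d ∈ V.R := by
  have h1 : V.a d ≠ d := fun h' => hb ⟨hd, h'⟩
  rw [h.2 d h1]
  exact (V.mem_R_a d).2 hd

omit [Finite D] [Finite E] in
private theorem chi_B {B : Set D} {B' : Set E} (hB : χ '' B = B') {d : D} (hd : d ∈ B) : χ d ∈ B' := by
  rw [← hB]
  exact ⟨d, hd, rfl⟩

theorem bdy_tr (h : Rep S U T T' χ) {Y : Set D} (hY : XP.Fs T Y) (hYS : ∀ d ∈ Y, d ∉ S.R) {d : D}
    (hd : d ∈ XP.bdy T (S.R ∪ Y)) : (d ∈ S.B ∨ d ∈ Y) ∧ χ d ∈ XP.bdy T' (U.R ∪ χ '' Y) := by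
  obtain ⟨h1, h2⟩ := hd
  have h3 : d ∈ S.B ∨ d ∈ Y := by
    rcases h1 with h1 | h1
    · by_cases hb : d ∈ S.B
      · exact Or.inl hb
      · exact absurd (Or.inl (a_in h.le h1 hb)) h2
    · exact Or.inr h1
  have hX : d ∈ S.X := h3.elim Or.inr fun h4 => Or.inl (hYS d h4)
  have h4 : T.a d ∉ S.R := fun h5 => h2 (Or.inl h5)
  refine ⟨h3, ?_, ?_⟩
  · rcases h3 with h3 | h3
    · exact Or.inl (chi_B h.bd h3).1
    · exact Or.inr ⟨d, h3, rfl⟩
  · rw [h.a d hX]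
    rintro (h5 | ⟨y, hy, h5⟩)
    · exact h.out _ h4 h5
    · have h6 : y = T.a d := h.inj (Or.inl (hYS y hy)) (Or.inl h4) h5
      rw [h6] at hy
      exact h2 (Or.inr hy)

/-- The rotation of the region `cut`. -/
private theorem cut_vinv {F : Type} [Finite F] {G : Type} {Q : Tri F} {Z : Set F} (hZ : XP.Fs Q Z) {q : F → G} :
    VInv (XP.cut Q Z hZ) q ↔ ∀ d ∈ Z, Q.a d ∈ Z → q (Q.f (Q.a d)) = q d := by
  have hs : ∀ d ∈ Z, Q.a d ∈ Z → (XP.cut Q Z hZ).s d = Q.f (Q.a d) := by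
    intro d hd ha
    refine (le_s (XP.cut_le Q Z hZ) ?_ ?_).symm
    · rw [XP.cut_R]
      exact hd
    · rw [XP.cut_B]
      exact fun hb => hb.2 ha
  constructor
  · intro hq d hd ha
    rw [← hs d hd ha]
    refine hq d ?_ ?_
    · rw [XP.cut_R]
      exact hd
    · rw [XP.cut_B]
      exact fun hb => hb.2 ha
  · intro hq d hd hb
    rw [XP.cut_R] at hd
    rw [XP.cut_B] at hb
    have ha : Q.a d ∈ Z := by
      by_contra hn
      exact hb ⟨hd, hn⟩
    rw [hs d hd ha]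
    exact hq d hd ha

theorem vinv_tr {G : Type} (h : Rep S U T T' χ) {Y : Set D} (hY : XP.Fs T Y) (hYS : ∀ d ∈ Y, d ∉ S.R)
    (h2 : XP.Fs T (S.R ∪ Y)) (h1 : XP.Fs T' (U.R ∪ χ '' Y)) {q' : E → G}
    (hq : VInv (XP.cut T' (U.R ∪ χ '' Y) h1) q') :
    ∃ q : D → G, VInv (XP.cut T (S.R ∪ Y) h2) q ∧ VInv S q ∧ ∀ d, (d ∈ S.B ∨ d ∈ Y) → q d = q' (χ d) := by
  obtain ⟨q0, hq0, hq1⟩ := exists_vinv S fun d => q' (χ d)
  obtain ⟨q, hqd⟩ : ∃ q : D → G, q = fun d => if d ∈ S.R then q0 d else q' (χ d) := ⟨_, rfl⟩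
  have hR : ∀ d ∈ S.R, q d = q0 d := by
    intro d hd
    rw [hqd]
    exact if_pos hd
  have hX : ∀ d ∈ S.X, q d = q' (χ d) := by
    intro d hd
    rcases hd with hd | hd
    · rw [hqd]
      exact if_neg hd
    · rw [hR d hd.1]
      exact hq1 d hd
  have hS : VInv S q := by
    intro d hd hb
    rw [hR _ ((S.mem_R_s d).2 hd), hR d hd]
    exact hq0 d hd hb
  rw [cut_vinv] at hq
  have hU : VInv U q' := by
    intro e he hb
    rw [← le_s h.le' he hb]
    exact hq e (Or.inl he) (Or.inl (a_in h.le' he hb))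
  refine ⟨q, ?_, hS, fun d hd => hX d (hd.elim Or.inr fun h3 => Or.inl (hYS d h3))⟩
  rw [cut_vinv]
  intro d hd had
  by_cases hdx : d ∈ S.X
  · have hax : T.a d ∈ S.X := (X_a h.le d).2 hdx
    have hmem : ∀ e ∈ S.R ∪ Y, e ∈ S.X → χ e ∈ U.R ∪ χ '' Y := by
      rintro e (he | he) hex
      · rcases hex with hex | hex
        · exact absurd he hex
        · exact Or.inl (chi_B h.bd hex).1
      · exact Or.inr ⟨e, he, rfl⟩
    have h3 := hq (χ d) (hmem d hd hdx) (by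
      rw [h.a d hdx]
      exact hmem _ had hax)
    rw [h.a d hdx] at h3
    rw [hX d hdx, ← h3]
    by_cases hb : T.a d ∈ S.R
    · have hb' : T.a d ∈ S.B := hax.resolve_left (not_not.2 hb)
      have h4 := hS.nx hb'
      have h5 := hU.nx (chi_B h.bd hb')
      rw [h.nx _ hb', ← h.le'.1 _ (chi_B h.bd hb').1] at h5
      rw [← h.le.1 _ hb] at h4
      rw [h4, h5]
      exact hX _ (Or.inr ((nx_mem S).2 hb'))
    · have hf : T.f (T.a d) ∉ S.R := fun h4 => hb ((le_f_mem h.le _).1 h4)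
      rw [h.f _ hb]
      exact hX _ (Or.inl hf)
  · have hdR : d ∈ S.R := by
      by_contra hn
      exact hdx (Or.inl hn)
    have hdB : d ∉ S.B := fun hb => hdx (Or.inr hb)
    have h3 := hS d hdR hdB
    rw [← le_s h.le hdR hdB] at h3
    exact h3

end SYS.TP
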